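import Mathlib
import Pool.Agent.Y957.MC.Spec3
import Pool.Agent.Y957.MC.Arg
import Pool.Agent.Y86.MC.NiceB

/-!
# Weights with power saving against deterministic functions (MC3-DET)
-/

set_option autoImplicit false

namespace Pool.Agent.Y932.MC

open MeasureTheory Filter Finset Pool.Agent.Y957.MC

theorem det3_block {B : ℕ → ℂ} {b : ℂ} (hPAR : S_PAR) (hTAIL : S_TAIL) (hB : PSav B b) {C1 : ℝ}
    (hC1 : 0 < C1) (hb : ∀ n, ‖B n - b‖ ≤ C1) {F : ℝ → ℂ} (hF : Measurable F) (hF1 : ∀ v, ‖F v‖ ≤ 1)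
    (hmod : ∀ Λ : ℝ, 1 ≤ Λ → ∃ C : ℝ, ∀ M : ℝ, 1 ≤ M → Mod Λ F C M) {ε A : ℝ} (hε : 0 < ε) (hA : 0 < A) :
    ∃ δ C : ℝ, 0 < δ ∧ ∀ᶠ N : ℕ in atTop,
      ∫ a in A..2 * A, ‖(1 / (N : ℂ)) * ∑ n ∈ Ioc ⌊ε * N⌋₊ N, ((B n - b) / C1) * F (a * n)‖ ^ 2 ≤
        C * (N : ℝ) ^ (-δ) := by
  classical
  obtain ⟨Λ, hΛd⟩ : ∃ Λ : ℝ, Λ = max 1 (Real.log (2 / ε)) := ⟨_, rfl⟩
  have hΛ : 1 ≤ Λ := hΛd ▸ le_max_left _ _
  have hΛ2 : Real.log (2 / ε) ≤ Λ := hΛd ▸ le_max_right _ _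
  have hΛ0 : 0 < Λ := by linarith
  obtain ⟨C₀, hC₀, htail⟩ := hTAIL Λ hΛ
  obtain ⟨Cm0, hCm0⟩ := hmod Λ hΛ
  obtain ⟨Cm, hCmd⟩ : ∃ Cm : ℝ, Cm = max Cm0 1 := ⟨_, rfl⟩
  have hCm : 1 ≤ Cm := hCmd ▸ le_max_right _ _
  have hCmle : Cm0 ≤ Cm := hCmd ▸ le_max_left _ _
  have hmod' : ∀ M : ℝ, 1 ≤ M → Mod Λ F Cm M := by
    intro M hM h h0 h1
    refine (hCm0 M hM h h0 h1).trans ?_
    gcongr
  obtain ⟨δ, hδ, Ce, hCe, hexp⟩ := hB ε 3 hε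
  have hBt : ∀ n, ‖(B n - b) / (C1 : ℂ)‖ ≤ 1 := by
    intro n
    rw [norm_div, Complex.norm_real, Real.norm_of_nonneg hC1.le, div_le_one hC1]
    exact hb n
  refine ⟨min (2 * δ) 1, 2 * Λ * A * ((Ce / C1) ^ 2 + C₀ * Cm * (A * ε)),
    lt_min (by linarith) one_pos, ?_⟩
  have e1 : ∀ᶠ N : ℕ in atTop, 1 / (A * ε) ≤ (N : ℝ) :=
    tendsto_natCast_atTop_atTop.eventually_ge_atTop _
  filter_upwards [hexp, eventually_ge_atTop 7, e1] with N hexpN hN7 hN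
  have hN1 : 1 ≤ N := by omega
  have hN0 : (0 : ℝ) < N := by exact_mod_cast hN1
  have hN1' : (1 : ℝ) ≤ N := by exact_mod_cast hN1
  have hN7' : (7 : ℝ) ≤ N := by exact_mod_cast hN7
  obtain ⟨U, hU⟩ : ∃ U : ℝ, U = ε * N := ⟨_, rfl⟩
  have hU0 : 0 < U := by rw [hU]; positivity
  have hAU : 1 ≤ A * U := by
    rw [div_le_iff₀ (by positivity)] at hN
    rw [hU]
    linarith
  have hmem : ∀ n ∈ Ioc ⌊ε * N⌋₊ N, ε * N ≤ n ∧ n ≤ N := by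
    intro n hn
    rw [mem_Ioc] at hn
    exact ⟨(Nat.lt_of_floor_lt hn.1).le, hn.2⟩
  have hylog : ∀ n ∈ Ioc ⌊ε * N⌋₊ N, 1 ≤ (fun n : ℕ => (n : ℝ) / U) n ∧
      Real.log (2 * (fun n : ℕ => (n : ℝ) / U) n) ≤ Λ := by
    intro n hn
    obtain ⟨h1, h2⟩ := hmem n hn
    have h2' : (n : ℝ) ≤ N := by exact_mod_cast h2
    have h3 : 1 ≤ (n : ℝ) / U := by
      rw [le_div_iff₀ hU0, one_mul, hU]
      exact h1
    refine ⟨h3, ?_⟩
    have h4 : 2 * ((n : ℝ) / U) ≤ 2 / ε := by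
      rw [hU, mul_div_assoc', div_le_div_iff₀ (by positivity) hε]
      nlinarith
    have h5 : 0 < 2 * ((n : ℝ) / U) := by linarith
    exact (Real.log_le_log h5 h4).trans hΛ2
  obtain ⟨p1, p2, p3⟩ := hPAR Λ F (fun n => (B n - b) / C1) (Ioc ⌊ε * N⌋₊ N)
    (fun n : ℕ => (n : ℝ) / U) A U N hΛ hF hF1 hA hU0 hN1 hylog
  have hUy : ∀ n : ℕ, U * ((n : ℝ) / U) = n := fun n => by field_simp
  simp only [hUy] at p3
  refine p3.trans ?_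
  -- the exponential sums
  have hbt : ∀ k : ℤ, |k| ≤ ((N ^ 2 : ℕ) : ℤ) →
      ‖bt Λ (fun n => (B n - b) / C1) (Ioc ⌊ε * N⌋₊ N) (fun n : ℕ => (n : ℝ) / U) N k‖ ≤
        Ce / C1 * (N : ℝ) ^ (-δ) := by
    intro k hk
    obtain ⟨κ, hκ⟩ : ∃ κ : ℝ, κ = 2 * Real.pi * k / Λ := ⟨_, rfl⟩
    have hkR : |(k : ℝ)| ≤ (N : ℝ) ^ 2 := by
      have : ((|k| : ℤ) : ℝ) ≤ (((N ^ 2 : ℕ) : ℤ) : ℝ) := by exact_mod_cast hk
      push_cast at this
      exact this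
    have hκN : |κ| ≤ (N : ℝ) ^ 3 := by
      rw [hκ, abs_div, abs_mul, abs_of_pos (by positivity : (0 : ℝ) < 2 * Real.pi), abs_of_pos hΛ0]
      have hpi : Real.pi ≤ 3.15 := by have := Real.pi_lt_d2; linarith
      calc 2 * Real.pi * |(k : ℝ)| / Λ ≤ 2 * Real.pi * |(k : ℝ)| := div_le_self (by positivity) hΛ
        _ ≤ 2 * 3.15 * (N : ℝ) ^ 2 := by gcongr
        _ ≤ N * (N : ℝ) ^ 2 := by
            refine mul_le_mul_of_nonneg_right ?_ (by positivity)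
            norm_num
            linarith
        _ = (N : ℝ) ^ 3 := by ring
    have h1 := hexpN κ hκN
    have h2 : bt Λ (fun n => (B n - b) / C1) (Ioc ⌊ε * N⌋₊ N) (fun n : ℕ => (n : ℝ) / U) N k =
        (1 / (N : ℂ)) * (1 / (C1 : ℂ)) * (Complex.exp (((-(κ * Real.log U) : ℝ) : ℂ) * Complex.I) *
        ∑ n ∈ Ioc ⌊ε * N⌋₊ N, (B n - b) *
          Complex.exp (((κ * Real.log n : ℝ) : ℂ) * Complex.I)) := by
      unfold bt
      rw [← hκ]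
      simp only [mul_sum]
      refine sum_congr rfl fun n hn => ?_
      obtain ⟨h1, -⟩ := hmem n hn
      have hn0 : (0 : ℝ) < n := lt_of_lt_of_le (by positivity) h1
      have h3 : Complex.exp (((κ * Real.log ((n : ℝ) / U) : ℝ) : ℂ) * Complex.I) =
          Complex.exp (((-(κ * Real.log U) : ℝ) : ℂ) * Complex.I) *
          Complex.exp (((κ * Real.log n : ℝ) : ℂ) * Complex.I) := by
        rw [← Complex.exp_add, ← add_mul, ← Complex.ofReal_add]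
        congr 3
        rw [Real.log_div hn0.ne' hU0.ne']
        ring
      rw [h3]
      ring
    rw [h2, norm_mul, norm_mul, norm_mul, Complex.norm_exp_ofReal_mul_I, one_mul, norm_div, norm_div,
      norm_one, Complex.norm_natCast, Complex.norm_real, Real.norm_of_nonneg hC1.le]
    calc 1 / (N : ℝ) * (1 / C1) * ‖∑ n ∈ Ioc ⌊ε * N⌋₊ N, (B n - b) *
          Complex.exp (((κ * Real.log n : ℝ) : ℂ) * Complex.I)‖
        ≤ 1 / (N : ℝ) * (1 / C1) * (Ce * (N : ℝ) ^ (1 - δ)) :=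
          mul_le_mul_of_nonneg_left h1 (by positivity)
      _ = Ce / C1 * ((N : ℝ) ^ (1 - δ) / N) := by ring
      _ = Ce / C1 * (N : ℝ) ^ (-δ) := by
          rw [← Real.rpow_sub_one hN0.ne']
          congr 2
          ring
  have hb1 : ∀ k, ‖bt Λ (fun n => (B n - b) / C1) (Ioc ⌊ε * N⌋₊ N)
      (fun n : ℕ => (n : ℝ) / U) N k‖ ^ 2 ≤ 1 := by
    intro k
    refine pow_le_one₀ (norm_nonneg _) (bt_norm_le hBt hN1 ?_ k)
    rw [Nat.card_Ioc]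
    omega
  obtain ⟨bb, hbb⟩ : ∃ bb : ℤ → ℝ, bb = fun k => ‖bt Λ (fun n => (B n - b) / C1) (Ioc ⌊ε * N⌋₊ N)
      (fun n : ℕ => (n : ℝ) / U) N k‖ ^ 2 := ⟨_, rfl⟩
  have hb1' : ∀ k, bb k ≤ 1 := fun k => by rw [hbb]; exact hb1 k
  have hb0' : ∀ k, 0 ≤ bb k := fun k => by rw [hbb]; positivity
  have hb2' : ∀ k : ℤ, |k| ≤ ((N ^ 2 : ℕ) : ℤ) → bb k ≤ (Ce / C1 * (N : ℝ) ^ (-δ)) ^ 2 := by
    intro k hk
    rw [hbb]
    exact pow_le_pow_left₀ (norm_nonneg _) (hbt k hk) 2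
  have hgoal : ∑' k : ℤ, ‖cf Λ F (A * U) k‖ ^ 2 * bb k ≤
      (Ce / C1 * (N : ℝ) ^ (-δ)) ^ 2 + C₀ * Cm * (A * U) / ((N ^ 2 : ℕ) : ℝ) := by
    have hle : ∀ k, ‖cf Λ F (A * U) k‖ ^ 2 * bb k ≤ ‖cf Λ F (A * U) k‖ ^ 2 := fun k =>
      mul_le_of_le_one_right (by positivity) (hb1' k)
    have hsum : Summable fun k : ℤ => ‖cf Λ F (A * U) k‖ ^ 2 * bb k :=
      Summable.of_nonneg_of_le (fun k => mul_nonneg (by positivity) (hb0' k)) hle p1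
    refine hsum.tsum_le_of_sum_le fun S => ?_
    rw [← sum_filter_add_sum_filter_not S (fun k => |k| ≤ ((N ^ 2 : ℕ) : ℤ))]
    refine add_le_add ?_ ?_
    · calc ∑ k ∈ S with |k| ≤ ((N ^ 2 : ℕ) : ℤ), ‖cf Λ F (A * U) k‖ ^ 2 * bb k
          ≤ ∑ k ∈ S with |k| ≤ ((N ^ 2 : ℕ) : ℤ), ‖cf Λ F (A * U) k‖ ^ 2 *
              (Ce / C1 * (N : ℝ) ^ (-δ)) ^ 2 :=
            sum_le_sum fun k hk => mul_le_mul_of_nonneg_left (hb2' k (mem_filter.1 hk).2) (by positivity)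
        _ = (∑ k ∈ S with |k| ≤ ((N ^ 2 : ℕ) : ℤ), ‖cf Λ F (A * U) k‖ ^ 2) *
              (Ce / C1 * (N : ℝ) ^ (-δ)) ^ 2 := by rw [sum_mul]
        _ ≤ 1 * (Ce / C1 * (N : ℝ) ^ (-δ)) ^ 2 :=
            mul_le_mul_of_nonneg_right ((p1.sum_le_tsum _ (fun k _ => by positivity)).trans p2)
              (by positivity)
        _ = _ := one_mul _
    · refine (sum_le_sum fun k _ => hle k).trans ?_
      refine htail F Cm (A * U) (N ^ 2) hF hF1 hCm hAU (hmod' _ hAU) (Nat.one_le_pow _ _ hN1) _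
        fun k hk => ?_
      rw [mem_filter] at hk
      exact not_le.mp hk.2
  have hmain : 2 * Λ * A * ∑' k : ℤ, ‖cf Λ F (A * U) k‖ ^ 2 * bb k ≤ 2 * Λ * A *
      ((Ce / C1 * (N : ℝ) ^ (-δ)) ^ 2 + C₀ * Cm * (A * U) / ((N ^ 2 : ℕ) : ℝ)) :=
    mul_le_mul_of_nonneg_left hgoal (by positivity)
  rw [hbb] at hmain
  refine hmain.trans ?_
  rw [mul_assoc (2 * Λ * A)]
  refine mul_le_mul_of_nonneg_left ?_ (by positivity)
  have h5 : (Ce / C1 * (N : ℝ) ^ (-δ)) ^ 2 ≤ (Ce / C1) ^ 2 * (N : ℝ) ^ (-(min (2 * δ) 1)) := by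
    rw [mul_pow, ← Real.rpow_natCast ((N : ℝ) ^ (-δ)) 2, ← Real.rpow_mul hN0.le]
    refine mul_le_mul_of_nonneg_left ?_ (by positivity)
    refine Real.rpow_le_rpow_of_exponent_le hN1' ?_
    push_cast
    linarith [min_le_left (2 * δ) 1]
  have h6 : C₀ * Cm * (A * U) / ((N ^ 2 : ℕ) : ℝ) ≤
      C₀ * Cm * (A * ε) * (N : ℝ) ^ (-(min (2 * δ) 1)) := by
    have h7 : C₀ * Cm * (A * U) / ((N ^ 2 : ℕ) : ℝ) = C₀ * Cm * (A * ε) * (N : ℝ) ^ (-(1 : ℝ)) := by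
      rw [hU, Real.rpow_neg_one]
      push_cast
      field_simp
    rw [h7]
    refine mul_le_mul_of_nonneg_left ?_ (by positivity)
    exact Real.rpow_le_rpow_of_exponent_le hN1' (by linarith [min_le_right (2 * δ) 1])
  rw [add_mul]
  exact add_le_add h5 h6

/-- (DET) -/
theorem det3 (h1 : S_PAR) (h2 : S_TAIL) : S_DET := by
  intro B b hB hBb F hF hF1 hmod
  obtain ⟨C, hC⟩ := hBb
  have hC0 : 0 ≤ C := (norm_nonneg _).trans (hC 0)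
  obtain ⟨C1, hC1d⟩ : ∃ C1 : ℝ, C1 = C + ‖b‖ + 1 := ⟨_, rfl⟩
  have hC1 : 0 < C1 := by
    have := norm_nonneg b
    linarith
  have hb : ∀ n, ‖B n - b‖ ≤ C1 := fun n => by
    have := norm_sub_le (B n) b
    have := hC n
    linarith
  have hBt : ∀ n, ‖(B n - b) / (C1 : ℂ)‖ ≤ 1 := by
    intro n
    rw [norm_div, Complex.norm_real, Real.norm_of_nonneg hC1.le, div_le_one hC1]
    exact hb n
  have hC1c : (C1 : ℂ) ≠ 0 := by exact_mod_cast hC1.ne'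
  have h3 : ∀ i : ℤ, ∀ᵐ a ∂(volume.restrict (Set.Ioc ((2 : ℝ) ^ i) ((2 : ℝ) ^ (i + 1)))),
      Tendsto (fun N : ℕ => (1 / (N : ℂ)) * ∑ n ∈ Icc 1 N, (B n - b) / C1 * F (a * n)) atTop
        (nhds 0) := by
    intro i
    have h4 : ∀ j : ℕ, ∃ m : ℕ, 0 < m ∧
        ∀ᵐ a ∂(volume.restrict (Set.Ioc ((2 : ℝ) ^ i) ((2 : ℝ) ^ (i + 1)))),
        Tendsto (fun l : ℕ => (1 / (((l + 1) ^ m : ℕ) : ℂ)) *
          ∑ n ∈ Ioc ⌊(1 / ((j : ℝ) + 1)) * (((l + 1) ^ m : ℕ) : ℝ)⌋₊ ((l + 1) ^ m),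
            (B n - b) / C1 * F (a * n)) atTop (nhds 0) := by
      intro j
      obtain ⟨δ, C', hδ, hR⟩ := det3_block h1 h2 hB hC1 hb hF hF1 hmod (ε := 1 / ((j : ℝ) + 1))
        (A := (2 : ℝ) ^ i) (by positivity) (by positivity)
      obtain ⟨m, hm⟩ := exists_nat_gt (1 / δ)
      have hm1 : 1 < m * δ := by
        rw [div_lt_iff₀ hδ] at hm
        exact hm
      have hm0 : 0 < m := by
        rcases Nat.eq_zero_or_pos m with h0 | h0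
        · rw [h0] at hm1
          norm_num at hm1
        · exact h0
      refine ⟨m, hm0, ?_⟩
      have h5 := Pool.Agent.Y86.MC.ae_block (X := Unit) (fun _ => F) (fun n => (n : ℝ))
        (hF.comp measurable_snd) (fun _ => hF1) () (fun n => (B n - b) / C1) hBt (1 / ((j : ℝ) + 1))
        ((2 : ℝ) ^ i) (by positivity) (fun N => C' * (N : ℝ) ^ (-δ)) m hm0 0
        (Pool.Agent.Y86.MC.summable_bound hm1 0) hR
      have h6 : 2 * (2 : ℝ) ^ i = 2 ^ (i + 1) := by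
        rw [zpow_add₀ two_ne_zero, zpow_one, mul_comm]
      rw [h6] at h5
      exact h5
    choose m hm0 hm using h4
    filter_upwards [ae_all_iff.2 hm] with a ha
    refine Pool.Agent.Y86.MC.det (fun n => ?_) fun j => ⟨m j, hm0 j, ha j⟩
    rw [norm_mul]
    exact mul_le_one₀ (hBt n) (norm_nonneg _) (hF1 _)
  have h7 : ∀ᵐ a ∂(volume.restrict (⋃ i : ℤ, Set.Ioc ((2 : ℝ) ^ i) ((2 : ℝ) ^ (i + 1)))),
      Tendsto (fun N : ℕ => (1 / (N : ℂ)) * ∑ n ∈ Icc 1 N, (B n - b) / C1 * F (a * n)) atTop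
        (nhds 0) := by
    rw [ae_restrict_iUnion_iff]
    exact h3
  have h8 : ∀ᵐ a : ℝ ∂(volume.restrict (Set.Ioi (0 : ℝ))),
      Tendsto (fun N : ℕ => (1 / (N : ℂ)) * ∑ n ∈ Icc 1 N, (B n - b) / C1 * F (a * n)) atTop
        (nhds 0) := by
    refine ae_mono (Measure.restrict_mono_set _ ?_) h7
    intro a ha
    obtain ⟨i, hi⟩ := exists_mem_Ioc_zpow (show (0 : ℝ) < a from ha) (one_lt_two)
    exact Set.mem_iUnion.2 ⟨i, hi⟩
  filter_upwards [h8] with a ha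
  have h9 := ha.const_mul (C1 : ℂ)
  rw [mul_zero] at h9
  refine h9.congr fun N => ?_
  rw [mul_left_comm, mul_sum]
  congr 1
  refine sum_congr rfl fun n _ => ?_
  field_simp

end Pool.Agent.Y932.MC
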