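import Mathlib
import Pool.Agent.Y957.MC.Spec2
import Pool.Agent.H442R2.EHI.VdC

/-!
# Exponential sums with phases `κ log (c n + b)`, uniformly in `b` (MC2-EXPC)
-/

set_option autoImplicit false

open Finset Filter

namespace Pool.Agent.Y932.MC

open Pool.Agent.H469R2.NK (e norm_e norm_sum_neg)
open Pool.Agent.H442R2.EHI (SL SL_le vdc_log EL)
open Pool.Agent.Y957.MC (S_EXPC)

/-- the sum over one range -/
noncomputable def SR (κ u : ℝ) (L : ℕ) : ℂ :=
  ∑ n ∈ range L, Complex.exp (((κ * Real.log (u + n) : ℝ) : ℂ) * Complex.I)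

theorem SR_eq (κ u : ℝ) (L : ℕ) : SR κ u L = ∑ n ∈ range L, e (κ / (2 * Real.pi) * Real.log (u + n)) := by
  unfold SR e
  refine sum_congr rfl fun n _ => ?_
  congr 3
  have := Real.pi_pos
  field_simp

theorem kl_piece (κ u : ℝ) (J L : ℕ) (hJ : 1 ≤ J) (hu : (J : ℝ) ≤ u) (huL : u + L ≤ 3 * J) (hκ : κ ≠ 0)
    (h : |κ| / Real.pi ≤ J) : ‖SR κ u L‖ ≤ 12 * Real.pi * (J / |κ|) := by
  have hpi := Real.pi_pos
  have hk : 0 < |κ| := abs_pos.mpr hκ
  have hZ : 0 < |κ| / (2 * Real.pi) := by positivity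
  have hJ' : (0 : ℝ) < J := by exact_mod_cast hJ
  have h1 := SL_le (|κ| / (2 * Real.pi)) hZ J u L hJ hu huL [] (by simp) (by
    simp only [List.length_nil, Nat.factorial_zero, Nat.cast_one, zero_add, pow_one, List.prod_nil,
      mul_one]
    have : 2 * (|κ| / (2 * Real.pi) * (1 / J)) = (|κ| / Real.pi) / J := by field_simp
    rw [this, div_le_one hJ']
    exact h)
  have h2 : ‖SR κ u L‖ = ‖SL (|κ| / (2 * Real.pi)) u L []‖ := by
    rw [SR_eq]
    unfold SL
    simp only [List.sum_nil, Nat.sub_zero, EL]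
    rcases le_or_gt 0 κ with h0 | h0
    · rw [abs_of_nonneg h0]
    · rw [abs_of_neg h0, ← norm_sum_neg]
      congr 1
      refine sum_congr rfl fun n _ => ?_
      congr 1
      ring
  rw [h2]
  refine h1.trans (le_of_eq ?_)
  simp only [List.length_nil, Nat.factorial_zero, Nat.cast_one, zero_add, pow_one, List.prod_nil,
      mul_one]
  field_simp
  ring

theorem piece (M : ℕ) : ∃ η : ℝ, 0 < η ∧ η ≤ 1 ∧ ∃ C : ℝ, 0 < C ∧ ∀ (J L : ℕ) (u κ : ℝ), 4 ≤ J →
    (J : ℝ) ≤ u → L ≤ J → u + L ≤ 3 * J → κ ≠ 0 → |κ| ≤ (J : ℝ) ^ M →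
    ‖SR κ u L‖ ≤ C * (J / |κ| + (J : ℝ) ^ (1 - η)) := by
  obtain ⟨η, hη, C, hC, H⟩ := vdc_log M
  have hpi := Real.pi_pos
  refine ⟨min η 1, lt_min hη one_pos, min_le_right _ _, max C (12 * Real.pi),
    lt_max_of_lt_left hC, ?_⟩
  intro J L u κ hJ hu hL huL hκ hM
  have hk : 0 < |κ| := abs_pos.mpr hκ
  have hJ' : (4 : ℝ) ≤ J := by exact_mod_cast hJ
  have hJ1 : (1 : ℝ) ≤ J := by linarith
  rcases le_or_gt (|κ| / Real.pi) J with h | h
  · calc ‖SR κ u L‖ ≤ 12 * Real.pi * (J / |κ|) := kl_piece κ u J L (by omega) hu huL hκ h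
      _ ≤ max C (12 * Real.pi) * (J / |κ|) :=
        mul_le_mul_of_nonneg_right (le_max_right _ _) (by positivity)
      _ ≤ _ := by
        refine mul_le_mul_of_nonneg_left ?_ (by positivity)
        have : (0 : ℝ) ≤ (J : ℝ) ^ (1 - min η 1) := by positivity
        linarith
  · have h1 : |κ / (2 * Real.pi)| = |κ| / (2 * Real.pi) := by
      rw [abs_div, abs_of_pos (by positivity : (0 : ℝ) < 2 * Real.pi)]
    have h2 : (J : ℝ) ^ (1 / 2 : ℝ) ≤ |κ / (2 * Real.pi)| := by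
      rw [h1, ← Real.sqrt_eq_rpow]
      have h3 : |κ| / (2 * Real.pi) = |κ| / Real.pi / 2 := by field_simp
      rw [h3]
      have h4 : Real.sqrt J ≤ J / 2 := by
        rw [Real.sqrt_le_left (by positivity)]
        nlinarith
      linarith
    have h5 : |κ / (2 * Real.pi)| ≤ (J : ℝ) ^ M := by
      refine le_trans ?_ hM
      rw [h1]
      refine div_le_self hk.le ?_
      linarith [Real.pi_gt_three]
    have h6 := H J L u (κ / (2 * Real.pi)) (by omega) hu hL huL h2 h5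
    rw [← SR_eq] at h6
    refine h6.trans ?_
    have h7 : (J : ℝ) ^ (1 - η) ≤ (J : ℝ) ^ (1 - min η 1) :=
      Real.rpow_le_rpow_of_exponent_le hJ1 (by linarith [min_le_left η 1])
    calc C * (J : ℝ) ^ (1 - η) ≤ max C (12 * Real.pi) * (J : ℝ) ^ (1 - min η 1) :=
          mul_le_mul (le_max_left _ _) h7 (by positivity) (by positivity)
      _ ≤ _ := by
        refine mul_le_mul_of_nonneg_left ?_ (by positivity)
        have : (0 : ℝ) ≤ (J : ℝ) / |κ| := by positivity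
        linarith

theorem pieces (M : ℕ) : ∃ η : ℝ, 0 < η ∧ η ≤ 1 ∧ ∃ C : ℝ, 0 < C ∧ ∀ (J : ℕ) (κ W : ℝ), 4 ≤ J → κ ≠ 0 →
    |κ| ≤ (J : ℝ) ^ M → ∀ (K L : ℕ) (u : ℝ), (J : ℝ) ≤ u → L ≤ K * J → u + L ≤ W →
    ‖SR κ u L‖ ≤ K * (C * (W / |κ| + W ^ (1 - η))) := by
  obtain ⟨η, hη, hη1, C, hC, H⟩ := piece M
  refine ⟨η, hη, hη1, C, hC, ?_⟩
  intro J κ W hJ hκ hM K
  have hk : 0 < |κ| := abs_pos.mpr hκ
  have one : ∀ (L : ℕ) (u : ℝ), (J : ℝ) ≤ u → L ≤ J → u + L ≤ W →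
      ‖SR κ u L‖ ≤ C * (W / |κ| + W ^ (1 - η)) := by
    intro L u hu hL hW
    have hu0 : 0 ≤ u := le_trans (Nat.cast_nonneg J) hu
    have h1 : J ≤ ⌊u⌋₊ := Nat.le_floor hu
    have h2 : (⌊u⌋₊ : ℝ) ≤ u := Nat.floor_le hu0
    have h3 : u < ⌊u⌋₊ + 1 := Nat.lt_floor_add_one u
    have h4 : (J : ℝ) ≤ ⌊u⌋₊ := by exact_mod_cast h1
    have h5 : (4 : ℝ) ≤ J := by exact_mod_cast hJ
    have h6 : (L : ℝ) ≤ J := by exact_mod_cast hL
    have h7 := H ⌊u⌋₊ L u κ (by omega) h2 (by omega) (by linarith) hκ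
      (hM.trans (pow_le_pow_left₀ (Nat.cast_nonneg J) h4 M))
    have hL0 : (0 : ℝ) ≤ L := Nat.cast_nonneg L
    have h8 : (⌊u⌋₊ : ℝ) ≤ W := by linarith
    have h9 : (0 : ℝ) ≤ ⌊u⌋₊ := Nat.cast_nonneg _
    refine h7.trans (mul_le_mul_of_nonneg_left ?_ hC.le)
    exact add_le_add (div_le_div_of_nonneg_right h8 hk.le)
      (Real.rpow_le_rpow h9 h8 (by linarith))
  induction K with
  | zero =>
    intro L u _ hL _
    have : L = 0 := by omega
    subst this
    simp [SR]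
  | succ K ih =>
    intro L u hu hL hW
    have hu0 : 0 ≤ u := le_trans (Nat.cast_nonneg J) hu
    have hL0 : (0 : ℝ) ≤ L := Nat.cast_nonneg L
    have hW0 : 0 ≤ W := by linarith
    have hB : 0 ≤ C * (W / |κ| + W ^ (1 - η)) := by positivity
    rcases Nat.lt_or_ge J L with h | h
    · obtain ⟨L', rfl⟩ : ∃ L', L = J + L' := ⟨L - J, by omega⟩
      have h1 : SR κ u (J + L') = SR κ u J + SR κ (u + J) L' := by
        unfold SR
        rw [sum_range_add]
        congr 1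
        refine sum_congr rfl fun n _ => ?_
        push_cast
        rw [add_assoc]
      push_cast at hW
      have hL1 : (0 : ℝ) ≤ L' := Nat.cast_nonneg L'
      have h2 := one J u hu le_rfl (by linarith)
      have h3 := ih L' (u + J) (by linarith [(Nat.cast_nonneg J : (0 : ℝ) ≤ J)])
        (by rw [Nat.succ_mul] at hL; omega) (by linarith)
      rw [h1]
      refine (norm_add_le _ _).trans ?_
      push_cast
      linarith
    · refine (one L u hu h hW).trans ?_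
      push_cast
      have : (0 : ℝ) ≤ K := Nat.cast_nonneg K
      nlinarith [mul_nonneg this hB]

theorem pos_case {c C₁ ε : ℝ} (Q : ℕ) (hc : 0 < c) (hC₁ : 0 < C₁) (hε : 0 < ε) :
    ∃ δ : ℝ, 0 < δ ∧ ∃ C : ℝ, 0 < C ∧
    ∀ᶠ N : ℕ in atTop, ∀ b κ : ℝ, |b| ≤ C₁ * N → κ ≠ 0 → |κ| ≤ (N : ℝ) ^ Q →
    ‖∑ n ∈ (Icc 1 N).filter (fun n : ℕ => ε * N ≤ c * n + b),
      Complex.exp (((κ * Real.log (c * n + b) : ℝ) : ℂ) * Complex.I)‖ ≤ C * (N / |κ| + (N : ℝ) ^ (1 - δ)) := by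
  obtain ⟨η, hη, hη1, C, hC, H⟩ := pieces (Q + 1)
  set a : ℝ := ε / (2 * c) with ha
  have ha0 : 0 < a := by positivity
  set K : ℕ := ⌈1 / a⌉₊ with hK
  have hK1 : 1 / a ≤ K := Nat.le_ceil _
  have hK0 : (0 : ℝ) < K := lt_of_lt_of_le (by positivity) hK1
  set w : ℝ := 2 + C₁ / c with hw
  have hw1 : 1 ≤ w := by
    have : 0 < C₁ / c := by positivity
    linarith
  refine ⟨η, hη, K * (C * w), by positivity, ?_⟩
  have e1 : ∀ᶠ N : ℕ in atTop, 4 / a ≤ (N : ℝ) :=
    tendsto_natCast_atTop_atTop.eventually_ge_atTop _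
  have e2 : ∀ᶠ N : ℕ in atTop, (1 / a) ^ (Q + 1) ≤ (N : ℝ) :=
    tendsto_natCast_atTop_atTop.eventually_ge_atTop _
  filter_upwards [e1, e2, eventually_ge_atTop 1] with N h1 h2 hN b κ hb hκ hQ
  have hN' : (1 : ℝ) ≤ N := by exact_mod_cast hN
  have hk : 0 < |κ| := abs_pos.mpr hκ
  have hBd : 0 ≤ K * (C * w) * (N / |κ| + (N : ℝ) ^ (1 - η)) := by positivity
  set n0 : ℕ := max 1 ⌈(ε * N - b) / c⌉₊ with hn0
  have hset : (Icc 1 N).filter (fun n : ℕ => ε * N ≤ c * n + b) = Ico n0 (N + 1) := by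
    ext n
    simp only [mem_filter, mem_Icc, mem_Ico, hn0, max_le_iff, Nat.ceil_le]
    rw [div_le_iff₀ hc]
    constructor
    · rintro ⟨⟨h3, h4⟩, h5⟩
      exact ⟨⟨h3, by linarith⟩, by omega⟩
    · rintro ⟨⟨h3, h4⟩, h5⟩
      exact ⟨⟨h3, by omega⟩, by linarith⟩
  rw [hset, sum_Ico_eq_sum_range]
  rcases Nat.lt_or_ge N n0 with hlt | hge
  · rw [show N + 1 - n0 = 0 by omega]
    simpa using hBd
  set u : ℝ := n0 + b / c with hu
  have hceil : (ε * N - b) / c ≤ n0 :=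
    (Nat.le_ceil _).trans (by exact_mod_cast le_max_right _ _)
  have hu1 : ε * N / c ≤ u := by
    have : ε * N / c = (ε * N - b) / c + b / c := by ring
    rw [this, hu]
    linarith
  have hu2 : 2 * (a * N) ≤ u := by
    refine le_trans (le_of_eq ?_) hu1
    rw [ha]; field_simp
  have haN : 4 ≤ a * N := by
    rw [div_le_iff₀ ha0] at h1
    linarith
  have hu0 : 0 < u := by linarith
  set J : ℕ := ⌈a * N⌉₊ with hJ
  have hJ1 : a * N ≤ J := Nat.le_ceil _
  have hJ2 : (J : ℝ) < a * N + 1 := Nat.ceil_lt_add_one (by positivity)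
  have hJu : (J : ℝ) ≤ u := by linarith
  have hJ4 : 4 ≤ J := by
    have : (4 : ℝ) ≤ J := by linarith
    exact_mod_cast this
  have hsum : ∑ i ∈ range (N + 1 - n0),
      Complex.exp (((κ * Real.log (c * ((n0 + i : ℕ) : ℝ) + b) : ℝ) : ℂ) * Complex.I) =
      Complex.exp (((κ * Real.log c : ℝ) : ℂ) * Complex.I) * SR κ u (N + 1 - n0) := by
    unfold SR
    rw [mul_sum]
    refine sum_congr rfl fun i _ => ?_
    have hi : (0 : ℝ) ≤ i := Nat.cast_nonneg i
    have h3 : c * ((n0 + i : ℕ) : ℝ) + b = c * (u + i) := by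
      rw [hu]; push_cast; field_simp; ring
    rw [h3, Real.log_mul hc.ne' (by positivity), ← Complex.exp_add]
    congr 1
    push_cast
    ring
  rw [hsum, norm_mul, Complex.norm_exp_ofReal_mul_I, one_mul]
  have hκJ : |κ| ≤ (J : ℝ) ^ (Q + 1) := by
    refine hQ.trans ?_
    calc (N : ℝ) ^ Q = 1 * (N : ℝ) ^ Q := by ring
      _ ≤ (a ^ (Q + 1) * N) * (N : ℝ) ^ Q := by
        refine mul_le_mul_of_nonneg_right ?_ (by positivity)
        rw [one_div, inv_pow, inv_le_iff_one_le_mul₀' (by positivity)] at h2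
        exact h2
      _ = (a * N) ^ (Q + 1) := by rw [mul_pow, pow_succ (N : ℝ) Q]; ring
      _ ≤ _ := pow_le_pow_left₀ (by positivity) hJ1 _
  have hLK : N + 1 - n0 ≤ K * J := by
    have h3 : 1 ≤ n0 := le_max_left _ _
    have h4 : (N : ℝ) ≤ K * J := by
      calc (N : ℝ) = 1 / a * (a * N) := by field_simp
        _ ≤ K * J := mul_le_mul hK1 hJ1 (by positivity) hK0.le
    have h5 : N ≤ K * J := by exact_mod_cast h4
    omega
  have huW : u + ((N + 1 - n0 : ℕ) : ℝ) ≤ w * N := by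
    rw [Nat.cast_sub (by omega), hu, hw]
    push_cast
    have h3 : b / c ≤ C₁ * N / c := div_le_div_of_nonneg_right ((le_abs_self b).trans hb) hc.le
    have h4 : (2 + C₁ / c) * N = 2 * N + C₁ * N / c := by ring
    rw [h4]
    linarith
  have h3 := H J κ (w * N) hJ4 hκ hκJ K (N + 1 - n0) u hJu hLK huW
  refine h3.trans ?_
  rw [mul_assoc, mul_assoc]
  refine mul_le_mul_of_nonneg_left (mul_le_mul_of_nonneg_left ?_ hC.le) hK0.le
  have h4 : (w * N) ^ (1 - η) ≤ w * (N : ℝ) ^ (1 - η) := by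
    rw [Real.mul_rpow (by positivity) (by positivity)]
    refine mul_le_mul_of_nonneg_right ?_ (by positivity)
    calc w ^ (1 - η) ≤ w ^ (1 : ℝ) := Real.rpow_le_rpow_of_exponent_le hw1 (by linarith)
      _ = w := Real.rpow_one w
  calc w * N / |κ| + (w * N) ^ (1 - η) ≤ w * N / |κ| + w * (N : ℝ) ^ (1 - η) := by linarith
    _ = _ := by ring

theorem expc : S_EXPC := by
  intro c C₁ ε Q hc hC₁ hε
  rcases lt_or_gt_of_ne hc with h | h
  · obtain ⟨δ, hδ, C, hC, H⟩ := pos_case (c := -c) (C₁ := C₁ + 2 * -c) (ε := ε) Q (by linarith)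
      (by linarith) hε
    refine ⟨δ, hδ, C, hC, ?_⟩
    filter_upwards [H, eventually_ge_atTop 1] with N h1 hN b κ hb hκ hQ
    have hN' : (1 : ℝ) ≤ N := by exact_mod_cast hN
    have h2 := h1 (b + c * (N + 1)) κ (by
      refine (abs_add_le _ _).trans ?_
      rw [abs_mul, abs_of_neg h, abs_of_pos (by positivity : (0 : ℝ) < N + 1)]
      have : -c * (N + 1) ≤ 2 * -c * N := by nlinarith
      linarith) hκ hQ
    refine le_trans (le_of_eq ?_) h2
    congr 1
    refine sum_nbij' (fun n => N + 1 - n) (fun n => N + 1 - n) ?_ ?_ ?_ ?_ ?_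
    · intro n hn
      simp only [mem_filter, mem_Icc] at hn ⊢
      refine ⟨by omega, ?_⟩
      rw [Nat.cast_sub (by omega)]
      push_cast
      linarith [hn.2]
    · intro n hn
      simp only [mem_filter, mem_Icc] at hn ⊢
      refine ⟨by omega, ?_⟩
      rw [Nat.cast_sub (by omega)]
      push_cast
      linarith [hn.2]
    · intro n hn
      simp only [mem_filter, mem_Icc] at hn
      omega
    · intro n hn
      simp only [mem_filter, mem_Icc] at hn
      omega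
    · intro n hn
      simp only [mem_filter, mem_Icc] at hn
      have h3 : -c * ((N + 1 - n : ℕ) : ℝ) + (b + c * (N + 1)) = c * n + b := by
        rw [Nat.cast_sub (by omega)]
        push_cast
        ring
      rw [h3]
  · exact pos_case Q h hC₁ hε

end Pool.Agent.Y932.MC
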