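import Mathlib
import Pool.Agent.Y957.MC.Spec2
import Pool.Agent.Y261.MC.Cov

/-!
# Boxes, second moment method (MC2-SGLC), first part: rows, second moments
-/

set_option autoImplicit false

namespace Pool.Agent.Y932.MC

open MeasureTheory Filter Finset Pool.Agent.Y957.MC Pool.Agent.Y261.MC

universe u

section box

variable {k : ℕ} (i : Fin k) (M : Fin k → ℕ)

theorem box_update {m : Fin k → ℕ} (hm : m ∈ box M) {n : ℕ} (hn : n ∈ Icc 1 (M i)) :
    Function.update m i n ∈ box M := by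
  unfold Pool.Agent.Y957.MC.box at *
  rw [Fintype.mem_piFinset] at *
  intro l
  by_cases h : l = i
  · subst h
    simpa using hn
  · rw [Function.update_of_ne h]
    exact hm l

theorem box_rows {E : Type*} [AddCommMonoid E] (f : (Fin k → ℕ) → E) :
    ∑ m ∈ box M, ∑ n ∈ Icc 1 (M i), f (Function.update m i n) = M i • ∑ m ∈ box M, f m := by
  have h1 : M i • ∑ m ∈ box M, f m = ∑ m ∈ box M, ∑ _n ∈ Icc 1 (M i), f m := by
    rw [Finset.smul_sum]
    simp
  rw [h1, ← Finset.sum_product' (box M) (Icc 1 (M i)) (fun m n => f (Function.update m i n)),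
    ← Finset.sum_product' (box M) (Icc 1 (M i)) (fun m _ => f m)]
  refine Finset.sum_nbij' (fun q => (Function.update q.1 i q.2, q.1 i))
    (fun q => (Function.update q.1 i q.2, q.1 i)) ?_ ?_ ?_ ?_ ?_
  · intro q hq
    rw [mem_product] at hq ⊢
    exact ⟨box_update i M hq.1 hq.2, (Fintype.mem_piFinset.1 hq.1) i⟩
  · intro q hq
    rw [mem_product] at hq ⊢
    exact ⟨box_update i M hq.1 hq.2, (Fintype.mem_piFinset.1 hq.1) i⟩
  · intro q _
    simp
  · intro q _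
    simp
  · intro q _
    rfl

theorem box_card : (box M).card = ∏ l, M l := by
  unfold Pool.Agent.Y957.MC.box
  rw [Fintype.card_piFinset]
  simp

theorem prod_pos' {M : Fin k → ℕ} (hM : ∀ l, 1 ≤ M l) : (0 : ℝ) < ((∏ l, M l : ℕ) : ℝ) := by
  have : 0 < ∏ l, M l := Finset.prod_pos fun l _ => hM l
  exact_mod_cast this

theorem rows_le {M : Fin k → ℕ} (hM : ∀ l, 1 ≤ M l) {f : (Fin k → ℕ) → ℝ} {C : ℝ}
    (h : ∀ m ∈ box M, ∑ n ∈ Icc 1 (M i), f (Function.update m i n) ≤ M i * C) :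
    (1 / ((∏ l, M l : ℕ) : ℝ)) * ∑ m ∈ box M, f m ≤ C := by
  have h0 := prod_pos' hM
  have h1 : (0 : ℝ) < M i := by exact_mod_cast hM i
  have h2 := Finset.sum_le_sum h
  rw [box_rows, sum_const, box_card, nsmul_eq_mul, nsmul_eq_mul] at h2
  rw [one_div, inv_mul_le_iff₀ h0]
  have h3 : (M i : ℝ) * ∑ m ∈ box M, f m ≤ M i * (((∏ l, M l : ℕ) : ℝ) * C) := by linarith
  exact le_of_mul_le_mul_left h3 h1

theorem rows_sq {M : Fin k → ℕ} (hM : ∀ l, 1 ≤ M l) (f : (Fin k → ℕ) → ℝ) :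
    ((1 / ((∏ l, M l : ℕ) : ℝ)) * ∑ m ∈ box M, f m) ^ 2 ≤ (1 / ((∏ l, M l : ℕ) : ℝ)) *
      ∑ m ∈ box M, ((1 / (M i : ℝ)) * ∑ n ∈ Icc 1 (M i), f (Function.update m i n)) ^ 2 := by
  have h0 := prod_pos' hM
  have h1 : (0 : ℝ) < M i := by exact_mod_cast hM i
  have h2 : ∑ m ∈ box M, f m =
      ∑ m ∈ box M, (1 / (M i : ℝ)) * ∑ n ∈ Icc 1 (M i), f (Function.update m i n) := by
    rw [← mul_sum, box_rows, nsmul_eq_mul]
    field_simp
  rw [h2]
  have h3 := sq_sum_le_card_mul_sum_sq (s := box M)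
    (f := fun m => (1 / (M i : ℝ)) * ∑ n ∈ Icc 1 (M i), f (Function.update m i n))
  rw [box_card] at h3
  rw [mul_pow]
  calc (1 / ((∏ l, M l : ℕ) : ℝ)) ^ 2 * (∑ m ∈ box M, (1 / (M i : ℝ)) *
        ∑ n ∈ Icc 1 (M i), f (Function.update m i n)) ^ 2 ≤ (1 / ((∏ l, M l : ℕ) : ℝ)) ^ 2 *
        (((∏ l, M l : ℕ) : ℝ) * ∑ m ∈ box M, ((1 / (M i : ℝ)) *
          ∑ n ∈ Icc 1 (M i), f (Function.update m i n)) ^ 2) :=
        mul_le_mul_of_nonneg_left h3 (by positivity)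
    _ = _ := by field_simp

theorem lin_update (c : Fin k → ℝ) (m : Fin k → ℕ) (n : ℕ) :
    lin c (Function.update m i n) = c i * n + (lin c m - c i * m i) := by
  have h1 : lin c (Function.update m i n) - lin c m = c i * ((n : ℝ) - m i) := by
    unfold lin
    rw [← Finset.sum_sub_distrib, Finset.sum_eq_single i]
    · rw [Function.update_self]
      ring
    · intro l _ hl
      rw [Function.update_of_ne hl]
      ring
    · intro h
      exact absurd (mem_univ i) h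
  linarith

theorem lin_le (c : Fin k → ℝ) {M : Fin k → ℕ} (hMi : ∀ l, M l ≤ M i) {m : Fin k → ℕ}
    (hm : m ∈ box M) : lin c m ≤ (∑ l, |c l|) * M i := by
  unfold lin
  rw [sum_mul]
  refine sum_le_sum fun l _ => ?_
  have h1 := (mem_Icc.1 ((Fintype.mem_piFinset.1 hm) l)).2
  have h2 : (m l : ℝ) ≤ M i := by exact_mod_cast h1.trans (hMi l)
  calc c l * m l ≤ |c l| * m l := mul_le_mul_of_nonneg_right (le_abs_self _) (Nat.cast_nonneg _)
    _ ≤ |c l| * M i := mul_le_mul_of_nonneg_left h2 (abs_nonneg _)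

end box

/-- the difference at the point `y` -/
def Zt {X : Type u} (F : X → ℝ → ℝ) (h y : ℝ) (z : X × ℝ) : ℝ :=
  F z.1 (z.2 * y) - F z.1 (z.2 * (y + h))

/-- the average along a row -/
noncomputable def Rw {X : Type u} (F : X → ℝ → ℝ) (c b ε h : ℝ) (N : ℕ) (z : X × ℝ) : ℝ :=
  (1 / (N : ℝ)) * ∑ n ∈ Icc 1 N, if ε * N ≤ c * n + b then Zt F h (c * n + b) z else 0

/-- the average over a box -/
noncomputable def Wb {X : Type u} {k : ℕ} (F : X → ℝ → ℝ) (c : Fin k → ℝ) (i : Fin k) (ε : ℝ)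
    (M : Fin k → ℕ) (h : ℝ) (z : X × ℝ) : ℝ :=
  (1 / ((∏ l, M l : ℕ) : ℝ)) * ∑ m ∈ box M, if ε * M i ≤ lin c m then Zt F h (lin c m) z else 0

section

variable {X : Type u} [MeasurableSpace X] {μ : Measure X} [IsProbabilityMeasure μ]
  {F : X → ℝ → ℝ} {R : ℝ → ℝ} {A B c0 h y y' j : ℝ}

omit [MeasurableSpace X] in
theorem Zt_le (hb : ∀ x v, 0 ≤ F x v ∧ F x v ≤ 1) (h y : ℝ) (z : X × ℝ) : |Zt F h y z| ≤ 1 := by
  have h1 := hb z.1 (z.2 * y)
  have h2 := hb z.1 (z.2 * (y + h))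
  rw [Zt, abs_le]
  constructor <;> linarith [h1.1, h1.2, h2.1, h2.2]

theorem Zt_meas (hF : Measurable (fun q : X × ℝ => F q.1 q.2)) (h y : ℝ) : Measurable (Zt F h y) :=
  (meas_time hF _).sub (meas_time hF _)

theorem Zt_meas' (hF : Measurable (fun q : X × ℝ => F q.1 q.2)) (c0 y : ℝ) :
    Measurable (fun q : (X × ℝ) × ℝ => Zt F (q.2 * c0) y q.1) := by
  refine Measurable.sub ?_ ?_
  · exact (meas_time hF _).comp measurable_fst
  · exact hF.comp ((measurable_fst.comp measurable_fst).prodMk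
      ((measurable_snd.comp measurable_fst).mul (measurable_const.add (measurable_snd.mul_const _))))

theorem covZ (hF : Measurable (fun q : X × ℝ => F q.1 q.2)) (hb : ∀ x v, 0 ≤ F x v ∧ F x v ≤ 1)
    (hR : ∀ v w, 1 ≤ v → v ≤ w → ∫ x, F x v * F x w ∂μ = R (w - v))
    (hA : 0 < A) (hAB : A ≤ B) (hc0 : 0 < c0) (hh : 0 ≤ h) (hh1 : h ≤ c0) (hj : 1 < j)
    (hy : 1 ≤ A * y) (hyy : y + c0 * j ≤ y') :
    |∫ z, Zt F h y z * Zt F h y' z ∂(μ.prod (volume.restrict (Set.Ioc A B)))| ≤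
      4 * B / (j - 1) := by
  have hB : 0 < B := hA.trans_le hAB
  have hj0 : 0 < j - 1 := by linarith
  have key : ∀ u, y ≤ u → u ≤ y + h →
      |∫ z, F z.1 (z.2 * u) * (F z.1 (z.2 * y') - F z.1 (z.2 * (y' + h)))
        ∂(μ.prod (volume.restrict (Set.Ioc A B)))| ≤ 2 * B / (j - 1) := by
    intro u hu1 hu2
    have h1 : 1 ≤ A * u := hy.trans (mul_le_mul_of_nonneg_left hu1 hA.le)
    have h2 : c0 * (j - 1) ≤ y' - u := by
      have : c0 * (j - 1) = c0 * j - c0 := by ring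
      linarith
    have h3 : 0 < c0 * (j - 1) := mul_pos hc0 hj0
    have h4 := cov hF hb hR hA hAB h1 (w := y') (v := y' + h) (by linarith) (by linarith)
    refine h4.trans ?_
    rw [add_sub_cancel_left]
    calc 2 * B * h / (y' - u) ≤ 2 * B * c0 / (c0 * (j - 1)) :=
          div_le_div₀ (by positivity) (mul_le_mul_of_nonneg_left hh1 (by positivity)) h3 h2
      _ = 2 * B / (j - 1) := by field_simp
  have hm1 : ∀ u, Integrable (fun z : X × ℝ => F z.1 (z.2 * u) *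
      (F z.1 (z.2 * y') - F z.1 (z.2 * (y' + h)))) (μ.prod (volume.restrict (Set.Ioc A B))) := by
    intro u
    refine int_of_bdd (C := 1) ((meas_time hF u).mul (Zt_meas hF h y')) fun z => ?_
    rw [abs_mul]
    exact mul_le_one₀ (abs_le_one hb _ _) (abs_nonneg _) (Zt_le hb h y' z)
  have e1 : ∫ z, Zt F h y z * Zt F h y' z ∂(μ.prod (volume.restrict (Set.Ioc A B))) =
      (∫ z, F z.1 (z.2 * y) * (F z.1 (z.2 * y') - F z.1 (z.2 * (y' + h)))
        ∂(μ.prod (volume.restrict (Set.Ioc A B)))) -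
      ∫ z, F z.1 (z.2 * (y + h)) * (F z.1 (z.2 * y') - F z.1 (z.2 * (y' + h)))
        ∂(μ.prod (volume.restrict (Set.Ioc A B))) := by
    rw [← integral_sub (hm1 _) (hm1 _)]
    refine integral_congr_ae (Eventually.of_forall fun z => ?_)
    simp only [Zt]
    ring
  rw [e1]
  refine (abs_sub _ _).trans ?_
  have k1 := key y le_rfl (by linarith)
  have k2 := key (y + h) (by linarith) le_rfl
  refine (add_le_add k1 k2).trans (le_of_eq ?_)
  field_simp
  ring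

theorem covZ' (hF : Measurable (fun q : X × ℝ => F q.1 q.2)) (hb : ∀ x v, 0 ≤ F x v ∧ F x v ≤ 1)
    (hR : ∀ v w, 1 ≤ v → v ≤ w → ∫ x, F x v * F x w ∂μ = R (w - v))
    (hA : 0 < A) (hAB : A ≤ B) (hc0 : 0 < c0) (hh : 0 ≤ h) (hh1 : h ≤ c0) {d : ℕ}
    (hy : 1 ≤ A * y) (hy' : 1 ≤ A * y') (hd : y + c0 * d = y' ∨ y' + c0 * d = y) :
    ∫ z, Zt F h y z * Zt F h y' z ∂(μ.prod (volume.restrict (Set.Ioc A B))) ≤
      12 * B * (1 / ((d : ℝ) + 1)) := by
  have hB : 0 < B := hA.trans_le hAB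
  rcases Nat.lt_or_ge 1 d with h1 | h1
  · have h2 : ((2 : ℕ) : ℝ) ≤ d := by exact_mod_cast h1
    push_cast at h2
    have h3 : 4 * B / ((d : ℝ) - 1) ≤ 12 * B * (1 / ((d : ℝ) + 1)) := by
      rw [mul_one_div, div_le_div_iff₀ (by linarith) (by linarith)]
      nlinarith
    rcases hd with h4 | h4
    · exact (le_abs_self _).trans ((covZ hF hb hR hA hAB hc0 hh hh1 (by linarith) hy h4.le).trans h3)
    · have h5 : ∀ z : X × ℝ, Zt F h y z * Zt F h y' z = Zt F h y' z * Zt F h y z :=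
        fun z => mul_comm _ _
      simp only [h5]
      exact (le_abs_self _).trans ((covZ hF hb hR hA hAB hc0 hh hh1 (by linarith) hy' h4.le).trans h3)
  · have h2 : (d : ℝ) ≤ 1 := by exact_mod_cast h1
    have h4 := norm_integral_le_of_norm_le_const (μ := μ.prod (volume.restrict (Set.Ioc A B)))
      (f := fun z => Zt F h y z * Zt F h y' z) (C := 1)
      (Eventually.of_forall fun z => by
        rw [norm_mul, Real.norm_eq_abs, Real.norm_eq_abs]
        exact mul_le_one₀ (Zt_le hb h y z) (abs_nonneg _) (Zt_le hb h y' z))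
    have h5 : (μ.prod (volume.restrict (Set.Ioc A B))).real Set.univ = B - A := by
      rw [measureReal_def, ← Set.univ_prod_univ, Measure.prod_prod]
      simp [hAB]
    rw [h5, one_mul] at h4
    have h6 : (1 : ℝ) / 2 ≤ 1 / ((d : ℝ) + 1) :=
      one_div_le_one_div_of_le (by positivity) (by linarith)
    have h7 : 12 * B * (1 / 2) ≤ 12 * B * (1 / ((d : ℝ) + 1)) :=
      mul_le_mul_of_nonneg_left h6 (by positivity)
    exact (le_abs_self _).trans (h4.trans (by linarith))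

/-- the second moment along a row -/
theorem momR (hF : Measurable (fun q : X × ℝ => F q.1 q.2)) (hb : ∀ x v, 0 ≤ F x v ∧ F x v ≤ 1)
    (hR : ∀ v w, 1 ≤ v → v ≤ w → ∫ x, F x v * F x w ∂μ = R (w - v))
    (hA : 0 < A) (hAB : A ≤ B) {c ε : ℝ} (hc : c ≠ 0) (hh : 0 ≤ h) (hh1 : h ≤ |c|) (b : ℝ) {N : ℕ}
    (hN : 1 ≤ N) (hAN : 1 ≤ A * (ε * N)) :
    ∫ z, Rw F c b ε h N z ^ 2 ∂(μ.prod (volume.restrict (Set.Ioc A B))) ≤ 96 * B / Real.sqrt N := by
  have hN0 : (0 : ℝ) < N := by exact_mod_cast hN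
  have hB : 0 < B := hA.trans_le hAB
  have hc0 : 0 < |c| := abs_pos.2 hc
  set P := μ.prod (volume.restrict (Set.Ioc A B)) with hP
  set I := (Icc 1 N).filter (fun n : ℕ => ε * N ≤ c * n + b) with hI
  have hi : ∀ n m : ℕ, Integrable (fun z => Zt F h (c * n + b) z * Zt F h (c * m + b) z) P :=
    fun n m => int_of_bdd (C := 1) ((Zt_meas hF h _).mul (Zt_meas hF h _)) fun z => by
      rw [abs_mul]
      exact mul_le_one₀ (Zt_le hb _ _ z) (abs_nonneg _) (Zt_le hb _ _ z)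
  have hmI : ∀ {n : ℕ}, n ∈ I → n ≤ N ∧ 1 ≤ A * (c * n + b) := by
    intro n hn
    rw [hI, mem_filter, mem_Icc] at hn
    exact ⟨hn.1.2, hAN.trans (mul_le_mul_of_nonneg_left hn.2 hA.le)⟩
  have e1 : ∫ z, Rw F c b ε h N z ^ 2 ∂P = (1 / (N : ℝ)) ^ 2 *
      ∑ n ∈ I, ∑ m ∈ I, ∫ z, Zt F h (c * n + b) z * Zt F h (c * m + b) z ∂P := by
    have e2 : ∀ z, Rw F c b ε h N z ^ 2 = (1 / (N : ℝ)) ^ 2 *
        ∑ n ∈ I, ∑ m ∈ I, Zt F h (c * n + b) z * Zt F h (c * m + b) z := by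
      intro z
      rw [Rw, ← sum_filter, mul_pow, sq (∑ n ∈ _, Zt F h _ z), sum_mul_sum]
    simp only [e2]
    rw [integral_const_mul, integral_finsetSum _ fun n _ => integrable_finsetSum _ fun m _ => hi n m]
    congr 1
    exact sum_congr rfl fun n _ => integral_finsetSum _ fun m _ => hi n m
  rw [e1]
  have hd : ∀ n m : ℕ, c * n + b + |c| * (((n - m) + (m - n) : ℕ) : ℝ) = c * m + b ∨
      c * m + b + |c| * (((n - m) + (m - n) : ℕ) : ℝ) = c * n + b := by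
    intro n m
    rcases le_total n m with h1 | h1
    · have h2 : (((n - m) + (m - n) : ℕ) : ℝ) = m - n := by
        rw [Nat.sub_eq_zero_of_le h1, zero_add, Nat.cast_sub h1]
      rw [h2]
      rcases lt_or_gt_of_ne hc with h3 | h3
      · right
        rw [abs_of_neg h3]
        ring
      · left
        rw [abs_of_pos h3]
        ring
    · have h2 : (((n - m) + (m - n) : ℕ) : ℝ) = n - m := by
        rw [Nat.sub_eq_zero_of_le h1, add_zero, Nat.cast_sub h1]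
      rw [h2]
      rcases lt_or_gt_of_ne hc with h3 | h3
      · left
        rw [abs_of_neg h3]
        ring
      · right
        rw [abs_of_pos h3]
        ring
  have e3 : ∑ n ∈ I, ∑ m ∈ I, ∫ z, Zt F h (c * n + b) z * Zt F h (c * m + b) z ∂P ≤
      ∑ n ∈ I, 12 * B * (8 * Real.sqrt N) := by
    refine sum_le_sum fun n hn => ?_
    refine (sum_le_sum fun m hm => covZ' hF hb hR hA hAB hc0 hh hh1 (hmI hn).2 (hmI hm).2
      (hd n m)).trans ?_
    rw [← mul_sum]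
    refine mul_le_mul_of_nonneg_left ?_ (by positivity)
    refine (sum_dist (fun k => 1 / ((k : ℝ) + 1)) (fun k => by positivity) I N n
      (fun m hm => (hmI hm).1) (hmI hn).1).trans ?_
    have h1 := harm_le (N + 1)
    have h2 : Real.sqrt ((N + 1 : ℕ) : ℝ) ≤ 2 * Real.sqrt N := by
      rw [Real.sqrt_le_left (by positivity), mul_pow, Real.sq_sqrt hN0.le]
      push_cast
      have : (1 : ℝ) ≤ N := by exact_mod_cast hN
      linarith
    linarith
  rw [sum_const, nsmul_eq_mul] at e3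
  have e4 : (I.card : ℝ) ≤ N := by
    have h1 : I.card ≤ N := by
      refine (card_filter_le _ _).trans ?_
      simp
    exact_mod_cast h1
  have e5 := e3.trans (mul_le_mul_of_nonneg_right e4 (by positivity))
  refine (mul_le_mul_of_nonneg_left e5 (by positivity)).trans (le_of_eq ?_)
  have h3 : Real.sqrt N * Real.sqrt N = N := Real.mul_self_sqrt hN0.le
  have h4 : Real.sqrt N ≠ 0 := (Real.sqrt_pos.2 hN0).ne'
  field_simp
  nlinarith [h3]

theorem Rw_meas (hF : Measurable (fun q : X × ℝ => F q.1 q.2)) (c b ε h : ℝ) (N : ℕ) :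
    Measurable (Rw F c b ε h N) :=
  measurable_const.mul (Finset.measurable_fun_sum _ fun n _ => by
    split_ifs
    · exact Zt_meas hF _ _
    · exact measurable_const)

omit [MeasurableSpace X] in
theorem Rw_le (hb : ∀ x v, 0 ≤ F x v ∧ F x v ≤ 1) (c b ε h : ℝ) {N : ℕ} (hN : 1 ≤ N) (z : X × ℝ) :
    |Rw F c b ε h N z| ≤ 1 := by
  have hN0 : (0 : ℝ) < N := by exact_mod_cast hN
  rw [Rw, abs_mul, abs_of_nonneg (by positivity : (0 : ℝ) ≤ 1 / N), one_div, inv_mul_le_iff₀ hN0,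
    mul_one]
  refine (abs_sum_le_sum_abs _ _).trans ?_
  refine (sum_le_sum (g := fun _ => (1 : ℝ)) fun n _ => ?_).trans ?_
  · split_ifs
    · exact Zt_le hb _ _ z
    · simp
  · simp

variable {k : ℕ} {c : Fin k → ℝ} {i : Fin k} {ε : ℝ} {M : Fin k → ℕ}

omit [MeasurableSpace X] in
theorem Wb_sq (hM : ∀ l, 1 ≤ M l) (z : X × ℝ) :
    Wb F c i ε M h z ^ 2 ≤ (1 / ((∏ l, M l : ℕ) : ℝ)) *
      ∑ m ∈ box M, Rw F (c i) (lin c m - c i * m i) ε h (M i) z ^ 2 := by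
  have h1 := rows_sq i hM (fun m => if ε * M i ≤ lin c m then Zt F h (lin c m) z else 0)
  simp only [lin_update] at h1
  exact h1

omit [MeasurableSpace X] in
theorem Wb_le (hb : ∀ x v, 0 ≤ F x v ∧ F x v ≤ 1) (hM : ∀ l, 1 ≤ M l) (z : X × ℝ) :
    |Wb F c i ε M h z| ≤ 1 := by
  have h0 := prod_pos' hM
  rw [Wb, abs_mul, abs_of_nonneg (by positivity : (0 : ℝ) ≤ 1 / ((∏ l, M l : ℕ) : ℝ)), one_div,
    inv_mul_le_iff₀ h0, mul_one]
  refine (abs_sum_le_sum_abs _ _).trans ?_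
  refine (sum_le_sum (g := fun _ => (1 : ℝ)) fun n _ => ?_).trans ?_
  · split_ifs
    · exact Zt_le hb _ _ z
    · simp
  · rw [sum_const, box_card]
    simp

theorem Wb_meas' (hF : Measurable (fun q : X × ℝ => F q.1 q.2)) (c0 : ℝ) :
    Measurable (fun q : (X × ℝ) × ℝ => Wb F c i ε M (q.2 * c0) q.1) :=
  measurable_const.mul (Finset.measurable_fun_sum _ fun n _ => by
    split_ifs
    · exact Zt_meas' hF _ _
    · exact measurable_const)

/-- the second moment over a box -/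
theorem momB (hF : Measurable (fun q : X × ℝ => F q.1 q.2)) (hb : ∀ x v, 0 ≤ F x v ∧ F x v ≤ 1)
    (hR : ∀ v w, 1 ≤ v → v ≤ w → ∫ x, F x v * F x w ∂μ = R (w - v))
    (hA : 0 < A) (hAB : A ≤ B) (hc : c i ≠ 0) (hh : 0 ≤ h) (hh1 : h ≤ |c i|)
    (hM : ∀ l, 1 ≤ M l) (hAN : 1 ≤ A * (ε * M i)) :
    ∫ z, Wb F c i ε M h z ^ 2 ∂(μ.prod (volume.restrict (Set.Ioc A B))) ≤
      96 * B / Real.sqrt (M i) := by
  have h0 := prod_pos' hM
  set P := μ.prod (volume.restrict (Set.Ioc A B)) with hP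
  have hi : ∀ m : Fin k → ℕ, Integrable (fun z =>
      Rw F (c i) (lin c m - c i * m i) ε h (M i) z ^ 2) P := fun m =>
    int_of_bdd (C := 1) ((Rw_meas hF _ _ _ _ _).pow_const 2) fun z => by
      rw [abs_pow]
      exact pow_le_one₀ (abs_nonneg _) (Rw_le hb _ _ _ _ (hM i) z)
  have h1 : ∫ z, Wb F c i ε M h z ^ 2 ∂P ≤ ∫ z, (1 / ((∏ l, M l : ℕ) : ℝ)) *
      ∑ m ∈ box M, Rw F (c i) (lin c m - c i * m i) ε h (M i) z ^ 2 ∂P := by
    refine integral_mono_of_nonneg (Eventually.of_forall fun z => sq_nonneg _) ?_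
      (Eventually.of_forall fun z => Wb_sq hM z)
    exact (integrable_finsetSum _ fun m _ => hi m).const_mul _
  refine h1.trans ?_
  rw [integral_const_mul, integral_finsetSum _ fun m _ => hi m, one_div, inv_mul_le_iff₀ h0]
  refine (sum_le_sum fun m _ => momR hF hb hR hA hAB hc hh hh1 _ (hM i) hAN).trans ?_
  rw [sum_const, box_card, nsmul_eq_mul]

/-- the average of the differences over the shifts -/
noncomputable def Db {X : Type u} {k : ℕ} (F : X → ℝ → ℝ) (c : Fin k → ℝ) (i : Fin k) (ε : ℝ)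
    (M : Fin k → ℕ) (z : X × ℝ) : ℝ := ∫ s in Set.Ioc (0 : ℝ) 1, Wb F c i ε M (s * |c i|) z

theorem jensen {ν : Measure ℝ} [IsProbabilityMeasure ν] {w : ℝ → ℝ} (hw : Measurable w)
    (hb : ∀ s, |w s| ≤ 1) : (∫ s, w s ∂ν) ^ 2 ≤ ∫ s, w s ^ 2 ∂ν := by
  set e := ∫ s, w s ∂ν with he
  have h1 : Integrable w ν := int_of_bdd hw hb
  have h2 : Integrable (fun s => w s ^ 2) ν := int_of_bdd (C := 1) (hw.pow_const 2) fun s => by
    rw [abs_pow]
    exact pow_le_one₀ (abs_nonneg _) (hb s)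
  have h3 : 0 ≤ ∫ s, (w s - e) ^ 2 ∂ν := integral_nonneg fun s => sq_nonneg _
  have h4 : ∫ s, (w s - e) ^ 2 ∂ν = ∫ s, w s ^ 2 ∂ν - e ^ 2 := by
    have h5 : ∀ s, (w s - e) ^ 2 = w s ^ 2 - 2 * e * w s + e ^ 2 := fun s => by ring
    simp only [h5]
    have h6 : Integrable (fun s => 2 * e * w s) ν := h1.const_mul _
    have h7 : ∫ s, (w s ^ 2 - 2 * e * w s + e ^ 2) ∂ν =
        ∫ s, (w s ^ 2 - 2 * e * w s) ∂ν + ∫ _s, e ^ 2 ∂ν :=
      integral_add (h2.sub h6) (integrable_const _)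
    have h8 : ∫ s, (w s ^ 2 - 2 * e * w s) ∂ν = ∫ s, w s ^ 2 ∂ν - ∫ s, 2 * e * w s ∂ν :=
      integral_sub h2 h6
    rw [h7, h8, integral_const_mul, ← he]
    simp
    ring
  linarith

instance : IsProbabilityMeasure (volume.restrict (Set.Ioc (0 : ℝ) 1)) := ⟨by simp⟩

theorem Db_meas (hF : Measurable (fun q : X × ℝ => F q.1 q.2)) : Measurable (Db F c i ε M) :=
  ((Wb_meas' (c := c) (i := i) (ε := ε) (M := M) hF |c i|).stronglyMeasurable.integral_prod_right
    (ν := volume.restrict (Set.Ioc (0 : ℝ) 1))).measurable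

theorem Db_sq (hF : Measurable (fun q : X × ℝ => F q.1 q.2)) (hb : ∀ x v, 0 ≤ F x v ∧ F x v ≤ 1)
    (hM : ∀ l, 1 ≤ M l) (z : X × ℝ) :
    Db F c i ε M z ^ 2 ≤ ∫ s in Set.Ioc (0 : ℝ) 1, Wb F c i ε M (s * |c i|) z ^ 2 :=
  jensen (ν := volume.restrict (Set.Ioc (0 : ℝ) 1))
    ((Wb_meas' hF |c i|).comp (measurable_const.prodMk measurable_id)) (fun s => Wb_le hb hM z)

theorem momD (hF : Measurable (fun q : X × ℝ => F q.1 q.2)) (hb : ∀ x v, 0 ≤ F x v ∧ F x v ≤ 1)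
    (hR : ∀ v w, 1 ≤ v → v ≤ w → ∫ x, F x v * F x w ∂μ = R (w - v))
    (hA : 0 < A) (hAB : A ≤ B) (hc : c i ≠ 0)
    (hM : ∀ l, 1 ≤ M l) (hAN : 1 ≤ A * (ε * M i)) :
    Integrable (fun z => Db F c i ε M z ^ 2) (μ.prod (volume.restrict (Set.Ioc A B))) ∧
    ∫ z, Db F c i ε M z ^ 2 ∂(μ.prod (volume.restrict (Set.Ioc A B))) ≤
      96 * B / Real.sqrt (M i) := by
  set P := μ.prod (volume.restrict (Set.Ioc A B)) with hP
  set ν := volume.restrict (Set.Ioc (0 : ℝ) 1) with hν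
  have hm2 : Measurable (fun q : (X × ℝ) × ℝ => Wb F c i ε M (q.2 * |c i|) q.1 ^ 2) :=
    (Wb_meas' hF |c i|).pow_const 2
  have hb2 : ∀ q : (X × ℝ) × ℝ, |Wb F c i ε M (q.2 * |c i|) q.1 ^ 2| ≤ 1 := fun q => by
    rw [abs_pow]
    exact pow_le_one₀ (abs_nonneg _) (Wb_le hb hM _)
  have hi2 : Integrable (fun q : (X × ℝ) × ℝ => Wb F c i ε M (q.2 * |c i|) q.1 ^ 2) (P.prod ν) :=
    int_of_bdd hm2 hb2
  have h0 : ∀ z, Db F c i ε M z ^ 2 ≤ ∫ s, Wb F c i ε M (s * |c i|) z ^ 2 ∂ν := Db_sq hF hb hM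
  have hle : ∀ z, ∫ s, Wb F c i ε M (s * |c i|) z ^ 2 ∂ν ≤ 1 := by
    intro z
    have := norm_integral_le_of_norm_le_const (μ := ν)
      (f := fun s => Wb F c i ε M (s * |c i|) z ^ 2) (C := 1)
      (Eventually.of_forall fun s => hb2 (z, s))
    simpa using (le_abs_self _).trans this
  have hI : Integrable (fun z => Db F c i ε M z ^ 2) P :=
    int_of_bdd (C := 1) ((Db_meas hF).pow_const 2) fun z => by
      rw [abs_of_nonneg (sq_nonneg _)]
      exact (h0 z).trans (hle z)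
  refine ⟨hI, ?_⟩
  calc ∫ z, Db F c i ε M z ^ 2 ∂P ≤ ∫ z, ∫ s, Wb F c i ε M (s * |c i|) z ^ 2 ∂ν ∂P :=
        integral_mono hI hi2.integral_prod_left h0
    _ = ∫ s, ∫ z, Wb F c i ε M (s * |c i|) z ^ 2 ∂P ∂ν := integral_integral_swap hi2
    _ ≤ ∫ _s : ℝ, 96 * B / Real.sqrt (M i) ∂ν := by
        refine integral_mono_of_nonneg (Eventually.of_forall fun s => integral_nonneg fun z =>
          sq_nonneg _) (integrable_const _) ?_
        rw [hν]
        filter_upwards [ae_restrict_mem measurableSet_Ioc] with s hs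
        refine momB hF hb hR hA hAB hc (mul_nonneg hs.1.le (abs_nonneg _)) ?_ hM hAN
        exact mul_le_of_le_one_left (abs_nonneg _) hs.2
    _ = _ := by simp

end

end Pool.Agent.Y932.MC
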