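import Mathlib
import Pool.Agent.Y932.MC.SglcA

/-!
# Boxes, second moment method (MC2-SGLC), second part
-/

set_option autoImplicit false

namespace Pool.Agent.Y932.MC

open MeasureTheory Filter Finset Pool.Agent.Y957.MC Pool.Agent.Y261.MC

universe u

/-- almost everywhere convergence from summable integrals -/
theorem ae_tendsto_nonneg {α : Type*} [MeasurableSpace α] {P : Measure α}
    {f : ℕ → α → ℝ} (hf : ∀ i, Measurable (f i)) (h0 : ∀ i z, 0 ≤ f i z)
    (hi : ∀ᶠ i : ℕ in atTop, Integrable (f i) P) {C : ℕ → ℝ} (hC : Summable C)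
    (h : ∀ᶠ i : ℕ in atTop, ∫ z, f i z ∂P ≤ C i) :
    ∀ᵐ z ∂P, Tendsto (fun i => f i z) atTop (nhds 0) := by
  obtain ⟨i₀, hi₀⟩ := eventually_atTop.1 (hi.and h)
  have hs : Summable (fun i : ℕ => C (i + i₀)) := (summable_nat_add_iff i₀).2 hC
  have h2 : ∀ i, ∫⁻ z, ENNReal.ofReal (f (i + i₀) z) ∂P ≤ ENNReal.ofReal (C (i + i₀)) := by
    intro i
    have h3 := hi₀ (i + i₀) (by omega)
    rw [← ofReal_integral_eq_lintegral_ofReal h3.1 (Eventually.of_forall fun z => h0 _ z)]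
    exact ENNReal.ofReal_le_ofReal h3.2
  have hm : ∀ i, Measurable (fun z => ENNReal.ofReal (f (i + i₀) z)) := fun i =>
    (hf _).ennreal_ofReal
  have h3 : ∫⁻ z, ∑' i, ENNReal.ofReal (f (i + i₀) z) ∂P ≠ ⊤ := by
    rw [lintegral_tsum fun i => (hm i).aemeasurable]
    exact ne_top_of_le_ne_top hs.tsum_ofReal_ne_top (ENNReal.tsum_le_tsum h2)
  have h4 := ae_lt_top (Measurable.ennreal_tsum hm) h3
  filter_upwards [h4] with z hz
  have h5 := ENNReal.tendsto_atTop_zero_of_tsum_ne_top hz.ne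
  have h6 := (ENNReal.tendsto_toReal ENNReal.zero_ne_top).comp h5
  rw [← tendsto_add_atTop_iff_nat i₀]
  refine (h6.congr fun i => ?_)
  simp only [Function.comp_apply]
  exact ENNReal.toReal_ofReal (h0 _ _)

/-- the dyadic box -/
def dy {k : ℕ} (t : Fin k → ℕ) (l : Fin k) : ℕ := 2 ^ t l

theorem dy_pos {k : ℕ} (t : Fin k → ℕ) (l : Fin k) : 1 ≤ dy t l := Nat.one_le_two_pow

/-- the sum of the squares of the differences over the dyadic boxes with longest side `2 ^ T` -/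
noncomputable def GT {X : Type u} {k : ℕ} (F : X → ℝ → ℝ) (c : Fin k → ℝ) (i : Fin k) (ε : ℝ)
    (T : ℕ) (z : X × ℝ) : ℝ :=
  ∑ t ∈ (Fintype.piFinset fun _ : Fin k => range (T + 1)).filter (fun t => t i = T),
    Db F c i ε (dy t) z ^ 2

theorem summ (k : ℕ) (B : ℝ) :
    Summable (fun T : ℕ => ((T : ℝ) + 1) ^ k * (96 * B / Real.sqrt ((2 ^ T : ℕ) : ℝ))) := by
  have h2 : (0 : ℝ) < Real.sqrt 2 := by positivity
  have hr : ‖(Real.sqrt 2)⁻¹‖ < 1 := by
    rw [norm_inv, Real.norm_of_nonneg h2.le]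
    refine inv_lt_one_of_one_lt₀ ?_
    rw [Real.lt_sqrt (by norm_num)]
    norm_num
  have h1 := summable_pow_mul_geometric_of_norm_lt_one k hr
  have h3 := (summable_nat_add_iff 1).2 h1
  refine (h3.mul_left (96 * B * Real.sqrt 2)).congr fun T => ?_
  have h4 : Real.sqrt ((2 ^ T : ℕ) : ℝ) = Real.sqrt 2 ^ T := by
    have h5 : ((2 ^ T : ℕ) : ℝ) = (Real.sqrt 2 ^ T) ^ 2 := by
      rw [← pow_mul, mul_comm, pow_mul, Real.sq_sqrt (by norm_num)]
      push_cast
      rfl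
    rw [h5]
    exact Real.sqrt_sq (by positivity)
  rw [h4]
  push_cast
  rw [inv_pow, pow_succ (Real.sqrt 2) T]
  field_simp

section

variable {X : Type u} [MeasurableSpace X] {μ : Measure X} [IsProbabilityMeasure μ]
  {F : X → ℝ → ℝ} {R : ℝ → ℝ} {A B : ℝ} {k : ℕ} {c : Fin k → ℝ} {i : Fin k} {ε : ℝ}

theorem tendsGT (hF : Measurable (fun q : X × ℝ => F q.1 q.2)) (hb : ∀ x v, 0 ≤ F x v ∧ F x v ≤ 1)
    (hR : ∀ v w, 1 ≤ v → v ≤ w → ∫ x, F x v * F x w ∂μ = R (w - v))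
    (hA : 0 < A) (hAB : A ≤ B) (hc : c i ≠ 0) (hε : 0 < ε) :
    ∀ᵐ z ∂(μ.prod (volume.restrict (Set.Ioc A B))),
      Tendsto (fun T : ℕ => GT F c i ε T z) atTop (nhds 0) := by
  have hB : 0 < B := hA.trans_le hAB
  have hN : ∀ᶠ T : ℕ in atTop, 1 ≤ A * (ε * ((2 ^ T : ℕ) : ℝ)) := by
    have h1 : Tendsto (fun T : ℕ => (((2 ^ T : ℕ)) : ℝ)) atTop atTop := by
      push_cast
      exact tendsto_pow_atTop_atTop_of_one_lt (by norm_num)
    filter_upwards [h1.eventually_ge_atTop (1 / (A * ε))] with T hT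
    rw [div_le_iff₀ (by positivity)] at hT
    linarith
  have key : ∀ {T : ℕ}, 1 ≤ A * (ε * ((2 ^ T : ℕ) : ℝ)) → ∀ {t : Fin k → ℕ}, t i = T →
      Integrable (fun z => Db F c i ε (dy t) z ^ 2) (μ.prod (volume.restrict (Set.Ioc A B))) ∧
      ∫ z, Db F c i ε (dy t) z ^ 2 ∂(μ.prod (volume.restrict (Set.Ioc A B))) ≤
        96 * B / Real.sqrt ((2 ^ T : ℕ) : ℝ) := by
    intro T hT t ht
    have h1 : dy t i = 2 ^ T := by
      unfold dy
      rw [ht]
    have h2 := momD hF hb hR hA hAB hc (M := dy t) (dy_pos t) (by rw [h1]; exact hT)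
    rw [h1] at h2
    exact h2
  refine ae_tendsto_nonneg (C := fun T : ℕ => ((T : ℝ) + 1) ^ k *
    (96 * B / Real.sqrt ((2 ^ T : ℕ) : ℝ))) ?_ ?_ ?_ (summ k B) ?_
  · intro T
    exact Finset.measurable_fun_sum _ fun t _ => (Db_meas hF).pow_const 2
  · intro T z
    exact sum_nonneg fun t _ => sq_nonneg _
  · filter_upwards [hN] with T hT
    exact integrable_finsetSum _ fun t ht => (key hT (mem_filter.1 ht).2).1
  · filter_upwards [hN] with T hT
    unfold GT
    rw [integral_finsetSum _ fun t ht => (key hT (mem_filter.1 ht).2).1]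
    refine (sum_le_sum fun t ht => (key hT (mem_filter.1 ht).2).2).trans ?_
    rw [sum_const, nsmul_eq_mul]
    refine mul_le_mul_of_nonneg_right ?_ (by positivity)
    have h1 : ((Fintype.piFinset fun _ : Fin k => range (T + 1)).filter
        (fun t => t i = T)).card ≤ (T + 1) ^ k := by
      refine (card_filter_le _ _).trans ?_
      rw [Fintype.card_piFinset]
      simp
    exact_mod_cast h1

omit [MeasurableSpace X] in
theorem Db_le_of_GT {z : X × ℝ} {T : ℕ} {t : Fin k → ℕ} (ht : t i = T) (htl : ∀ l, t l ≤ T) {δ : ℝ}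
    (hδ : 0 < δ) (h : GT F c i ε T z ≤ δ ^ 2) : |Db F c i ε (dy t) z| ≤ δ := by
  have h1 : t ∈ (Fintype.piFinset fun _ : Fin k => range (T + 1)).filter (fun t => t i = T) := by
    rw [mem_filter, Fintype.mem_piFinset]
    refine ⟨fun l => ?_, ht⟩
    rw [mem_range]
    have := htl l
    omega
  have h2 := single_le_sum (f := fun t => Db F c i ε (dy t) z ^ 2) (fun t _ => sq_nonneg _) h1
  exact abs_le_of_sq_le_sq (h2.trans h) hδ.le

end

/-- the averages over the intervals -/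
noncomputable def SB {k : ℕ} (f : ℝ → ℝ) (c : Fin k → ℝ) (i : Fin k) (ε a : ℝ) (M : Fin k → ℕ) : ℝ :=
  (1 / ((∏ l, M l : ℕ) : ℝ)) * ∑ m ∈ box M,
    if ε * M i ≤ lin c m then ∫ s in Set.Ioc (0 : ℝ) 1, f (a * (lin c m + s * |c i|)) else 0

/-- the averages over the points -/
noncomputable def AB {k : ℕ} (f : ℝ → ℝ) (c : Fin k → ℝ) (i : Fin k) (ε a : ℝ) (M : Fin k → ℕ) : ℝ :=
  (1 / ((∏ l, M l : ℕ) : ℝ)) * ∑ m ∈ box M,
    if ε * M i ≤ lin c m then f (a * lin c m) else 0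

theorem Db_eq {X : Type u} [MeasurableSpace X] {F : X → ℝ → ℝ} {k : ℕ} {c : Fin k → ℝ} {i : Fin k}
    {ε : ℝ} {M : Fin k → ℕ} (hF : Measurable (fun q : X × ℝ => F q.1 q.2))
    (hb : ∀ x v, 0 ≤ F x v ∧ F x v ≤ 1) (x : X) (a : ℝ) :
    Db F c i ε M (x, a) = AB (F x) c i ε a M - SB (F x) c i ε a M := by
  have hx : Measurable (F x) := hF.comp (measurable_const.prodMk measurable_id)
  have hi : ∀ m : Fin k → ℕ, IntegrableOn (fun s => F x (a * (lin c m + s * |c i|)))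
      (Set.Ioc (0 : ℝ) 1) volume := fun m =>
    int_of_bdd (C := 1) (hx.comp (measurable_const.mul (measurable_const.add
      (measurable_id.mul_const _)))) (fun s => abs_le_one hb _ _)
  unfold Db Wb AB SB
  rw [← mul_sub, ← sum_sub_distrib, integral_const_mul, integral_finsetSum]
  · congr 1
    refine sum_congr rfl fun m _ => ?_
    split_ifs
    · simp only [Zt]
      rw [integral_sub (integrable_const _) (hi m)]
      simp
    · simp
  · intro m _
    split_ifs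
    · simp only [Zt]
      exact (integrable_const _).sub (hi m)
    · exact integrable_const _

section det

variable {f : ℝ → ℝ} {k : ℕ} {c : Fin k → ℝ} {i : Fin k} {ε a L : ℝ} {M : Fin k → ℕ}

theorem point_sep {c : ℝ} (b : ℝ) {n m : ℕ} (hnm : n ≠ m) :
    c * n + b + |c| ≤ c * m + b ∨ c * m + b + |c| ≤ c * n + b := by
  have h1 : ∀ {n m : ℕ}, n < m → c * n + b + |c| ≤ c * m + b ∨ c * m + b + |c| ≤ c * n + b := by
    intro n m h
    have h2 : (n : ℝ) + 1 ≤ m := by exact_mod_cast h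
    rcases le_or_gt 0 c with h3 | h3
    · left
      rw [abs_of_nonneg h3]
      nlinarith
    · right
      rw [abs_of_neg h3]
      nlinarith
  rcases lt_or_gt_of_ne hnm with h | h
  · exact h1 h
  · exact (h1 h).symm

theorem SB_le (hf : Measurable f) (hb : ∀ v, 0 ≤ f v ∧ f v ≤ 1) (hc : c i ≠ 0) (hε : 0 < ε)
    (ha : 0 < a) (hM : ∀ l, 1 ≤ M l) (hMi : ∀ l, M l ≤ M i)
    (hL : (1 / (a * (2 * (∑ l, |c l|) * M i))) * ∫ v in (0 : ℝ)..a * (2 * (∑ l, |c l|) * M i), f v ≤ L) :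
    SB f c i ε a M ≤ 2 * (∑ l, |c l|) / |c i| * L := by
  have hc0 : 0 < |c i| := abs_pos.2 hc
  set Ct := ∑ l, |c l| with hCt
  have hCc : |c i| ≤ Ct := single_le_sum (f := fun l => |c l|) (fun l _ => abs_nonneg _) (mem_univ i)
  have hCt0 : 0 < Ct := hc0.trans_le hCc
  have hM0 : (1 : ℝ) ≤ M i := by exact_mod_cast hM i
  have hM1 : (0 : ℝ) < M i := by linarith
  set V := a * (2 * Ct * M i) with hV
  have hV0 : 0 < V := by positivity
  have hfi : ∀ s : Set ℝ, Bornology.IsBounded s → IntegrableOn f s volume := by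
    intro s hs
    have h1 : volume s < ⊤ := hs.measure_lt_top
    have : IsFiniteMeasure (volume.restrict s) := ⟨by simpa using h1⟩
    exact int_of_bdd hf fun v => abs_le.2 ⟨by linarith [(hb v).1], (hb v).2⟩
  refine rows_le i hM ?_
  intro m hm
  set b := lin c m - c i * m i with hbd
  simp only [lin_update]
  rw [← sum_filter]
  set I := (Icc 1 (M i)).filter (fun n : ℕ => ε * M i ≤ c i * n + (lin c m - c i * m i)) with hI
  -- each term
  have h1 : ∀ y : ℝ, ∫ s in Set.Ioc (0 : ℝ) 1, f (a * (y + s * |c i|)) =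
      (a * |c i|)⁻¹ * ∫ v in Set.Ioc (a * y) (a * (y + |c i|)), f v := by
    intro y
    rw [← intervalIntegral.integral_of_le zero_le_one,
      ← intervalIntegral.integral_of_le (mul_le_mul_of_nonneg_left (by linarith) ha.le)]
    have e1 : ∀ s, a * (y + s * |c i|) = (a * |c i|) * s + a * y := fun s => by ring
    simp only [e1]
    rw [intervalIntegral.integral_comp_mul_add f (by positivity), smul_eq_mul]
    congr 2
    · ring
    · ring
  simp only [h1]
  rw [← mul_sum]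
  have h2 : ∑ n ∈ I, ∫ v in Set.Ioc (a * (c i * n + (lin c m - c i * m i)))
      (a * (c i * n + (lin c m - c i * m i) + |c i|)), f v ≤ ∫ v in Set.Ioc 0 V, f v := by
    rw [← integral_biUnion_finset I (fun n _ => measurableSet_Ioc)]
    · refine setIntegral_mono_set (hfi _ (Metric.isBounded_Ioc _ _))
        (Eventually.of_forall fun v => (hb v).1) ?_
      refine (Set.iUnion₂_subset fun n hn => ?_).eventuallyLE
      rw [hI, mem_filter] at hn
      have h3 : c i * n + (lin c m - c i * m i) = lin c (Function.update m i n) :=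
        (lin_update i c m n).symm
      have h4 := lin_le i c hMi (box_update i M hm hn.1)
      rw [← h3] at h4
      refine Set.Ioc_subset_Ioc (mul_nonneg ha.le (le_trans (by positivity) hn.2)) ?_
      rw [hV]
      refine mul_le_mul_of_nonneg_left ?_ ha.le
      nlinarith
    · intro n hn m' hm' hnm
      rw [Function.onFun, Set.disjoint_left]
      rintro v ⟨h3, h4⟩ ⟨h5, h6⟩
      rcases point_sep (c := c i) (lin c m - c i * m i) hnm with h7 | h7
      · have := mul_le_mul_of_nonneg_left h7 ha.le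
        linarith
      · have := mul_le_mul_of_nonneg_left h7 ha.le
        linarith
    · exact fun n _ => hfi _ (Metric.isBounded_Ioc _ _)
  have h3 : ∫ v in Set.Ioc 0 V, f v ≤ V * L := by
    rw [← intervalIntegral.integral_of_le hV0.le]
    rw [one_div, inv_mul_le_iff₀ hV0] at hL
    exact hL
  calc (a * |c i|)⁻¹ * ∑ n ∈ I, ∫ v in Set.Ioc (a * (c i * n + (lin c m - c i * m i)))
          (a * (c i * n + (lin c m - c i * m i) + |c i|)), f v ≤ (a * |c i|)⁻¹ * (V * L) :=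
        mul_le_mul_of_nonneg_left (h2.trans h3) (by positivity)
    _ = M i * (2 * Ct / |c i| * L) := by
        rw [hV]
        field_simp

/-- the part of the box where the form is small -/
theorem low_le (hc : c i ≠ 0) (hε : 0 < ε) (hM : ∀ l, 1 ≤ M l) :
    (1 / ((∏ l, M l : ℕ) : ℝ)) * ∑ m ∈ box M,
      (if 0 < lin c m ∧ lin c m < ε * M i then (1 : ℝ) else 0) ≤ ε / |c i| + 1 / M i := by
  have hc0 : 0 < |c i| := abs_pos.2 hc
  have hM0 : (1 : ℝ) ≤ M i := by exact_mod_cast hM i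
  have hM1 : (0 : ℝ) < M i := by linarith
  refine rows_le i hM ?_
  intro m _
  simp only [lin_update]
  rw [← sum_filter, sum_const, nsmul_eq_mul, mul_one]
  set I := (Icc 1 (M i)).filter (fun n : ℕ => 0 < c i * n + (lin c m - c i * m i) ∧
    c i * n + (lin c m - c i * m i) < ε * M i) with hI
  have e1 : (M i : ℝ) * (ε / |c i| + 1 / M i) = ε * M i / |c i| + 1 := by
    field_simp
  rw [e1]
  rcases I.eq_empty_or_nonempty with h0 | h0
  · rw [h0]
    simp
    positivity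
  · have h1 := I.min'_mem h0
    have h2 := I.max'_mem h0
    set p := I.min' h0
    set q := I.max' h0
    have hpq : p ≤ q := I.min'_le q h2
    have h3 : I ⊆ Icc p q := fun n hn => mem_Icc.2 ⟨I.min'_le n hn, I.le_max' n hn⟩
    have h4 := card_le_card h3
    rw [Nat.card_Icc] at h4
    have h5 : (I.card : ℝ) ≤ (q : ℝ) - p + 1 := by
      have h6 : ((I.card + p : ℕ) : ℝ) ≤ ((q + 1 : ℕ) : ℝ) := by exact_mod_cast (by omega)
      push_cast at h6
      linarith
    have h7 := (mem_filter.1 h1).2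
    have h8 := (mem_filter.1 h2).2
    have h9 : |c i| * ((q : ℝ) - p) ≤ ε * M i := by
      rcases le_or_gt 0 (c i) with h | h
      · rw [abs_of_nonneg h]
        nlinarith [h7.1, h8.2]
      · rw [abs_of_neg h]
        nlinarith [h7.2, h8.1]
    have h10 : (q : ℝ) - p ≤ ε * M i / |c i| := by
      rw [le_div_iff₀ hc0]
      linarith
    linarith

theorem split_le (hb : ∀ v, 0 ≤ f v ∧ f v ≤ 1) (hc : c i ≠ 0) (hε : 0 < ε) (hM : ∀ l, 1 ≤ M l) :
    (1 / ((∏ l, M l : ℕ) : ℝ)) * ∑ m ∈ box M, (if 0 < lin c m then f (a * lin c m) else 0) ≤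
      AB f c i ε a M + (ε / |c i| + 1 / M i) := by
  have h0 := prod_pos' hM
  refine le_trans ?_ (add_le_add_right (low_le hc hε hM) _)
  unfold AB
  rw [← mul_add, ← sum_add_distrib]
  refine mul_le_mul_of_nonneg_left (sum_le_sum fun m _ => ?_) (by positivity)
  have h1 := hb (a * lin c m)
  by_cases h2 : 0 < lin c m
  · by_cases h3 : ε * M i ≤ lin c m
    · rw [if_pos h2, if_pos h3, if_neg (by rintro ⟨_, h⟩; linarith)]
      linarith
    · rw [if_pos h2, if_neg h3, if_pos ⟨h2, not_le.1 h3⟩]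
      linarith
  · have h4 : ¬ (0 < lin c m ∧ lin c m < ε * M i) := fun h => h2 h.1
    rw [if_neg h2, if_neg h4]
    split_ifs <;> linarith [h1.1]

/-- interpolation between dyadic boxes -/
theorem interp {g : (Fin k → ℕ) → ℝ} (hg : ∀ m, 0 ≤ g m) (hM : ∀ l, 1 ≤ M l) {κ : ℝ}
    (h : (1 / ((∏ l, dy (fun l => Nat.log 2 (M l) + 1) l : ℕ) : ℝ)) *
      ∑ m ∈ box (dy (fun l => Nat.log 2 (M l) + 1)), g m ≤ κ) :
    (1 / ((∏ l, M l : ℕ) : ℝ)) * ∑ m ∈ box M, g m ≤ 2 ^ k * κ := by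
  have h0 := prod_pos' hM
  set D := dy (fun l => Nat.log 2 (M l) + 1) with hD
  have hD1 : ∀ l, M l ≤ D l := fun l => (Nat.lt_pow_succ_log_self (by norm_num) _).le
  have hD2 : ∀ l, D l ≤ 2 * M l := by
    intro l
    have h1 := Nat.pow_log_le_self 2 (x := M l) (by have := hM l; omega)
    rw [hD, dy, pow_succ]
    omega
  have hD0 := prod_pos' (M := D) (fun l => dy_pos _ l)
  have h1 : ∑ m ∈ box M, g m ≤ ∑ m ∈ box D, g m := by
    refine sum_le_sum_of_subset_of_nonneg ?_ fun m _ _ => hg m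
    refine Fintype.piFinset_subset _ _ fun l => ?_
    exact Icc_subset_Icc_right (hD1 l)
  have h2 : ((∏ l, D l : ℕ) : ℝ) ≤ 2 ^ k * ((∏ l, M l : ℕ) : ℝ) := by
    have h3 : ∏ l, D l ≤ ∏ l, (2 * M l) := Finset.prod_le_prod' fun l _ => hD2 l
    rw [prod_mul_distrib, prod_const, card_univ, Fintype.card_fin] at h3
    exact_mod_cast h3
  have h4 : 0 ≤ ∑ m ∈ box D, g m := sum_nonneg fun m _ => hg m
  have hκ : 0 ≤ κ := le_trans (by positivity) h
  rw [one_div, inv_mul_le_iff₀ hD0] at h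
  rw [one_div, inv_mul_le_iff₀ h0]
  calc ∑ m ∈ box M, g m ≤ ((∏ l, D l : ℕ) : ℝ) * κ := h1.trans h
    _ ≤ (2 ^ k * ((∏ l, M l : ℕ) : ℝ)) * κ := mul_le_mul_of_nonneg_right h2 hκ
    _ = _ := by ring

end det

/-- (SGLC) -/
theorem sglc : S_SGLC.{u} := by
  intro k c i hc
  have hc0 : 0 < |c i| := abs_pos.2 hc
  have hCc : |c i| ≤ ∑ l, |c l| :=
    single_le_sum (f := fun l => |c l|) (fun l _ => abs_nonneg _) (mem_univ i)
  have hCt0 : 0 < ∑ l, |c l| := hc0.trans_le hCc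
  refine ⟨fun _ => 2 ^ k * (2 * (∑ l, |c l|) / |c i|), fun ε => by positivity, ?_⟩
  intro X _ μ _ F R hF hb hR
  have hj : ∀ j : ℕ, (0 : ℝ) < 1 / ((j : ℝ) + 1) := fun j => by positivity
  have h1 : ∀ᵐ x ∂μ, ∀ q : ℕ × ℕ, ∀ᵐ a ∂(volume.restrict (Set.Ioc (1 / ((q.2 : ℝ) + 1)) ((q.2 : ℝ) + 1))),
      Tendsto (fun T : ℕ => GT F c i (1 / ((q.1 : ℝ) + 1)) T (x, a)) atTop (nhds 0) := by
    rw [ae_all_iff]
    rintro ⟨j, r⟩
    refine Measure.ae_ae_of_ae_prod (tendsGT hF hb hR (by positivity) ?_ hc (hj j))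
    have hr : (0 : ℝ) ≤ r := Nat.cast_nonneg r
    rw [div_le_iff₀ (by positivity)]
    nlinarith
  filter_upwards [h1] with x hx
  have h2 : ∀ᵐ a ∂(volume.restrict (Set.Ioi (0 : ℝ))), ∀ j : ℕ,
      Tendsto (fun T : ℕ => GT F c i (1 / ((j : ℝ) + 1)) T (x, a)) atTop (nhds 0) := by
    rw [ae_all_iff]
    intro j
    have h3 : Set.Ioi (0 : ℝ) ⊆ ⋃ r : ℕ, Set.Ioc (1 / ((r : ℝ) + 1)) ((r : ℝ) + 1) := by
      intro a ha
      have ha0 : (0 : ℝ) < a := ha
      obtain ⟨r, hr⟩ := exists_nat_gt (max (1 / a) a)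
      rw [max_lt_iff] at hr
      refine Set.mem_iUnion.2 ⟨r, ?_, by linarith [hr.2]⟩
      have hr0 : (0 : ℝ) ≤ r := Nat.cast_nonneg r
      have h4 := hr.1
      rw [div_lt_iff₀ ha0] at h4
      rw [div_lt_iff₀ (by positivity)]
      nlinarith
    refine ae_restrict_of_ae_restrict_of_subset h3 ?_
    rw [ae_restrict_iUnion_iff]
    exact fun r => hx (j, r)
  have h2' := ae_restrict_mem (μ := volume) (measurableSet_Ioi (a := (0 : ℝ)))
  filter_upwards [h2, h2'] with a ha ha0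
  intro ε L hε hL
  have ha0 : (0 : ℝ) < a := ha0
  have hxm : Measurable (F x) := hF.comp (measurable_const.prodMk measurable_id)
  have h2k : (0 : ℝ) < 2 ^ k := by positivity
  -- the parameters
  set j := ⌈4 * 2 ^ k / (ε * |c i|)⌉₊ with hjd
  have hεj : 2 ^ k * (1 / ((j : ℝ) + 1) / |c i|) ≤ ε / 4 := by
    have h5 : 4 * 2 ^ k / (ε * |c i|) ≤ j := Nat.le_ceil _
    rw [div_le_iff₀ (by positivity)] at h5
    rw [div_div, mul_one_div, div_le_div_iff₀ (by positivity) (by norm_num)]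
    nlinarith [mul_pos hε hc0]
  set δ : ℝ := ε / (4 * 2 ^ k) with hδ
  have hδ0 : 0 < δ := by positivity
  have e1 : ∀ᶠ T : ℕ in atTop, GT F c i (1 / ((j : ℝ) + 1)) T (x, a) < δ ^ 2 :=
    (ha j).eventually_lt_const (by positivity)
  have h2T : Tendsto (fun T : ℕ => (((2 ^ T : ℕ)) : ℝ)) atTop atTop := by
    push_cast
    exact tendsto_pow_atTop_atTop_of_one_lt (by norm_num)
  have e2 : ∀ᶠ T : ℕ in atTop, 1 / δ ≤ (((2 ^ T : ℕ)) : ℝ) := h2T.eventually_ge_atTop _
  have e3 : ∀ᶠ T : ℕ in atTop, (1 / (a * (2 * (∑ l, |c l|) * ((2 ^ T : ℕ) : ℝ)))) *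
      ∫ v in (0 : ℝ)..a * (2 * (∑ l, |c l|) * ((2 ^ T : ℕ) : ℝ)), F x v ≤ L := by
    have h5 : Tendsto (fun T : ℕ => a * (2 * (∑ l, |c l|) * ((2 ^ T : ℕ) : ℝ))) atTop atTop :=
      (h2T.const_mul_atTop (by positivity)).const_mul_atTop ha0
    exact h5.eventually hL
  obtain ⟨T₀, hT₀⟩ := eventually_atTop.1 (e1.and (e2.and e3))
  refine ⟨2 ^ T₀, fun M hM hMi => ?_⟩
  have hM1 : ∀ l, 1 ≤ M l := fun l => Nat.one_le_two_pow.trans (hM l)
  have hlog : T₀ ≤ Nat.log 2 (M i) := Nat.le_log_of_pow_le (by norm_num) (hM i)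
  obtain ⟨g1, g2, g3⟩ := hT₀ (Nat.log 2 (M i) + 1) (by omega)
  set t : Fin k → ℕ := fun l => Nat.log 2 (M l) + 1 with ht
  have hti : t i = Nat.log 2 (M i) + 1 := rfl
  have htl : ∀ l, t l ≤ Nat.log 2 (M i) + 1 := fun l =>
    Nat.succ_le_succ (Nat.log_mono_right (hMi l))
  have hdi : dy t i = 2 ^ (Nat.log 2 (M i) + 1) := rfl
  have hdl : ∀ l, dy t l ≤ dy t i := fun l => Nat.pow_le_pow_right (by norm_num) (htl l)
  have hD := Db_le_of_GT (F := F) (c := c) (ε := 1 / ((j : ℝ) + 1)) (z := (x, a)) hti htl hδ0 g1.le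
  rw [Db_eq hF hb] at hD
  have hS := SB_le (L := L) (M := dy t) hxm (hb x) hc (hj j) ha0 (dy_pos t) hdl
    (by rw [hdi]; exact g3)
  have hsp := split_le (M := dy t) (a := a) (hb x) hc (hj j) (dy_pos t)
  have h6 : 1 / ((dy t i : ℕ) : ℝ) ≤ δ := by
    rw [hdi]
    have h7 : (0 : ℝ) < ((2 ^ (Nat.log 2 (M i) + 1) : ℕ) : ℝ) := by positivity
    rw [div_le_iff₀ hδ0] at g2
    rw [div_le_iff₀ h7]
    linarith
  have h8 := interp (M := M) (g := fun m => if 0 < lin c m then F x (a * lin c m) else 0)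
    (fun m => by
      split_ifs
      · exact (hb x _).1
      · exact le_rfl) hM1 hsp
  refine h8.trans ?_
  have h9 : 2 ^ k * δ = ε / 4 := by
    rw [hδ]
    field_simp
  have h10 : AB (F x) c i (1 / ((j : ℝ) + 1)) a (dy t) ≤ δ + 2 * (∑ l, |c l|) / |c i| * L := by
    linarith [(abs_le.1 hD).2]
  calc 2 ^ k * (AB (F x) c i (1 / ((j : ℝ) + 1)) a (dy t) +
        (1 / ((j : ℝ) + 1) / |c i| + 1 / ((dy t i : ℕ) : ℝ)))
      ≤ 2 ^ k * ((δ + 2 * (∑ l, |c l|) / |c i| * L) + (1 / ((j : ℝ) + 1) / |c i| + δ)) :=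
        mul_le_mul_of_nonneg_left (by linarith) h2k.le
    _ = 2 ^ k * (1 / ((j : ℝ) + 1) / |c i|) + 2 * (2 ^ k * δ) +
        2 ^ k * (2 * (∑ l, |c l|) / |c i|) * L := by ring
    _ ≤ ε + 2 ^ k * (2 * (∑ l, |c l|) / |c i|) * L := by
        rw [h9]
        linarith

end Pool.Agent.Y932.MC
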